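import Mathlib

set_option autoImplicit false

/-!
# Definitions for the disproof of the Tverberg–Vrećica conjecture (m = 3, r = (3,2,...,2,1))
-/

namespace TVD

/-- There are `r` pairwise disjoint sets of indices, each of whose vectors has `0` in its convex hull. -/
def Split {ι V : Type*} [AddCommGroup V] [Module ℝ V] (r : ℕ) (w : ι → V) : Prop :=
  ∃ A : Fin r → Set ι, (∀ i j, i ≠ j → Disjoint (A i) (A j)) ∧
    ∀ j, (0 : V) ∈ convexHull ℝ (w '' A j)

/-- `z` is a Radon point of the five points `y`. -/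
def IsRadon {V : Type*} [AddCommGroup V] [Module ℝ V] (y : Fin 5 → V) (z : V) : Prop :=
  ∃ A B : Set (Fin 5), Disjoint A B ∧ z ∈ convexHull ℝ (y '' A) ∧ z ∈ convexHull ℝ (y '' B)

/-- Terms: constants, linear combinations, Radon gadgets (an expression tree, no sharing). -/
inductive Tm : Type
  | const (v : Fin 4 → ℝ) : Tm
  | lin (a b : ℝ) (s t : Tm) : Tm
  | rad (y : Fin 5 → Tm) : Tm

/-- The set of possible values of a term if the constants are evaluated with `q`. -/
def Tm.sem {V : Type*} [AddCommGroup V] [Module ℝ V] (q : (Fin 4 → ℝ) → V) : Tm → Set V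
  | .const v => {q v}
  | .lin a b s t => {z | ∃ x ∈ s.sem q, ∃ y ∈ t.sem q, z = a • x + b • y}
  | .rad y => {z | ∃ w : Fin 5 → V, (∀ i, w i ∈ (y i).sem q) ∧ IsRadon w z}

/-- The orthogonal projection along the unit vector `x`. -/
def proj (x v : Fin 4 → ℝ) : Fin 4 → ℝ := v - (∑ i, x i * v i) • x

/-- The unit sphere. -/
def Sph : Set (Fin 4 → ℝ) := {x | ∑ i, x i ^ 2 = 1}

/-- (C) There is an odd map from the sphere to the complement of `V₃`. -/
def StatementC : Prop :=
  ∃ f : (Fin 4 → ℝ) → Fin 9 → (Fin 3 → ℝ), ContinuousOn f Sph ∧ (∀ x ∈ Sph, f (-x) = - f x) ∧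
    ∀ x ∈ Sph, ¬ Split 3 (f x)

/-- (B) Every even continuous tangent field is approximated by a term. -/
def StatementB : Prop :=
  ∀ s : (Fin 4 → ℝ) → (Fin 4 → ℝ), ContinuousOn s Sph → (∀ x ∈ Sph, s (-x) = s x) →
    (∀ x ∈ Sph, ∑ i, x i * s x i = 0) → ∀ ε > 0, ∃ t : Tm, ∀ x ∈ Sph, ∀ z ∈ t.sem (proj x),
      ‖z - s x‖ < ε

/-- What (B) and (C) give together: nine terms whose values never split. -/
def StatementBC : Prop :=
  ∃ t : Fin 9 → Tm, ∀ x ∈ Sph, ∀ z : Fin 9 → (Fin 4 → ℝ), (∀ l, z l ∈ (t l).sem (proj x)) →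
    ¬ Split 3 z

end TVD
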