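import Pool.Agent.H47.TVD.Defs

set_option autoImplicit false

/-!
# RadonU: the Radon point is unique if the affine dependency is unique up to a factor

PROOF. `z = ∑ a i • y i` with `a ≥ 0`, `∑ a = 1`, `a i = 0` off `A`, and the same with `b` on `B` (convex hull
of the image of a set under `y`: `mem_convexHull_image_iff`-type lemma below, prove it first).
`la = a - b` is a dependency, so `la = c * mu`. As `A`, `B` are disjoint, `a i = max (la i) 0` and
`b i = max (-la i) 0`. `c ≠ 0` because `∑ a = 1`. If `c > 0` then `a i = c * max (mu i) 0`; if `c < 0` then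
`b i = (-c) * max (mu i) 0`. In both cases `z = k • ∑ max (mu i) 0 • y i` and `1 = k * ∑ max (mu i) 0` with
`k = |c|`.
-/

namespace TVD

theorem mem_hull_image {ι V : Type*} [Fintype ι] [AddCommGroup V] [Module ℝ V] (y : ι → V) (A : Set ι)
    (z : V) : z ∈ convexHull ℝ (y '' A) ↔
      ∃ a : ι → ℝ, (∀ i, 0 ≤ a i) ∧ (∀ i, i ∉ A → a i = 0) ∧ ∑ i, a i = 1 ∧ ∑ i, a i • y i = z := by
  classical
  constructor
  · intro hz
    have hconv : Convex ℝ {z : V | ∃ a : ι → ℝ, (∀ i, 0 ≤ a i) ∧ (∀ i, i ∉ A → a i = 0) ∧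
        ∑ i, a i = 1 ∧ ∑ i, a i • y i = z} := by
      rintro z1 ⟨a, ha0, haA, ha1, haz⟩ z2 ⟨b, hb0, hbA, hb1, hbz⟩ s t hs ht hst
      refine ⟨fun i => s * a i + t * b i, fun i => ?_, fun i hi => ?_, ?_, ?_⟩
      · exact add_nonneg (mul_nonneg hs (ha0 i)) (mul_nonneg ht (hb0 i))
      · simp only [haA i hi, hbA i hi, mul_zero, add_zero]
      · rw [Finset.sum_add_distrib, ← Finset.mul_sum, ← Finset.mul_sum, ha1, hb1, mul_one, mul_one,
          hst]
      · simp only [add_smul, mul_smul]
        rw [Finset.sum_add_distrib, ← Finset.smul_sum, ← Finset.smul_sum, haz, hbz]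
    refine convexHull_min ?_ hconv hz
    rintro _ ⟨i, hi, rfl⟩
    refine ⟨fun j => if j = i then 1 else 0, fun j => ?_, fun j hj => ?_, ?_, ?_⟩
    · simp only
      split_ifs <;> norm_num
    · have hne : j ≠ i := by
        rintro rfl
        exact hj hi
      simp only [if_neg hne]
    · simp
    · simp
  · rintro ⟨a, ha0, haA, ha1, rfl⟩
    have e1 : ∑ i, a i • y i = ∑ i ∈ Finset.univ.filter (fun i => i ∈ A), a i • y i := by
      rw [Finset.sum_filter]
      refine Finset.sum_congr rfl fun i _ => ?_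
      split_ifs with h
      · rfl
      · rw [haA i h, zero_smul]
    have e2 : ∑ i ∈ Finset.univ.filter (fun i => i ∈ A), a i = 1 := by
      rw [← ha1, Finset.sum_filter]
      refine Finset.sum_congr rfl fun i _ => ?_
      split_ifs with h
      · rfl
      · exact (haA i h).symm
    rw [e1]
    refine (convex_convexHull ℝ (y '' A)).sum_mem (fun i _ => ha0 i) e2 fun i hi => ?_
    exact subset_convexHull ℝ _ ⟨i, (Finset.mem_filter.1 hi).2, rfl⟩

theorem radon_formula {V : Type*} [AddCommGroup V] [Module ℝ V] (y : Fin 5 → V) (mu : Fin 5 → ℝ)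
    (huniq : ∀ la : Fin 5 → ℝ, ∑ i, la i = 0 → ∑ i, la i • y i = 0 → ∃ c : ℝ, ∀ i, la i = c * mu i)
    (z : V) (hz : IsRadon y z) :
    (∑ i, max (mu i) 0) • z = ∑ i, max (mu i) 0 • y i := by
  obtain ⟨A, B, hAB, hA, hB⟩ := hz
  obtain ⟨a, ha0, haA, ha1, haz⟩ := (mem_hull_image y A z).1 hA
  obtain ⟨b, hb0, hbB, hb1, hbz⟩ := (mem_hull_image y B z).1 hB
  obtain ⟨c, hc⟩ := huniq (fun i => a i - b i)
    (by rw [Finset.sum_sub_distrib, ha1, hb1, sub_self])
    (by simp only [sub_smul]; rw [Finset.sum_sub_distrib, haz, hbz, sub_self])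
  have hdis : ∀ i, a i = 0 ∨ b i = 0 := by
    intro i
    by_cases hi : i ∈ A
    · right
      exact hbB i fun h => (Set.disjoint_left.1 hAB) hi h
    · left
      exact haA i hi
  have haM : ∀ i, a i = max (c * mu i) 0 := by
    intro i
    have h1 : a i - b i = c * mu i := hc i
    rcases hdis i with h | h
    · rw [h]
      have : c * mu i ≤ 0 := by
        rw [← h1, h]
        linarith [hb0 i]
      rw [max_eq_right this]
    · have h2 : a i = c * mu i := by
        rw [← h1, h, sub_zero]
      rw [← h2, max_eq_left (ha0 i)]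
  have hbM : ∀ i, b i = max (-(c * mu i)) 0 := by
    intro i
    have h1 : a i - b i = c * mu i := hc i
    rcases hdis i with h | h
    · have h2 : b i = -(c * mu i) := by
        rw [← h1, h, zero_sub, neg_neg]
      rw [← h2, max_eq_left (hb0 i)]
    · rw [h]
      have : -(c * mu i) ≤ 0 := by
        rw [← h1, h]
        linarith [ha0 i]
      rw [max_eq_right this]
  have key : ∀ (k : ℝ) (e : Fin 5 → ℝ), (∀ i, e i = k * max (mu i) 0) → ∑ i, e i = 1 →
      ∑ i, e i • y i = z → (∑ i, max (mu i) 0) • z = ∑ i, max (mu i) 0 • y i := by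
    intro k e he h1 hz
    have h2 : k * ∑ i, max (mu i) 0 = 1 := by
      rw [Finset.mul_sum, ← h1]
      exact Finset.sum_congr rfl fun i _ => (he i).symm
    have h3 : z = k • ∑ i, max (mu i) 0 • y i := by
      rw [Finset.smul_sum, ← hz]
      refine Finset.sum_congr rfl fun i _ => ?_
      rw [he i, mul_smul]
    rw [h3, smul_smul, mul_comm, h2, one_smul]
  rcases le_or_gt 0 c with h0 | h0
  · refine key c a (fun i => ?_) ha1 haz
    rw [haM i, mul_max_of_nonneg _ _ h0, mul_zero]
  · refine key (-c) b (fun i => ?_) hb1 hbz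
    rw [hbM i, mul_max_of_nonneg _ _ (by linarith : (0 : ℝ) ≤ -c), mul_zero, neg_mul]

end TVD
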