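import Pool.Agent.H47.TVD.Defs

set_option autoImplicit false

/-!
# Transport: from a surjective `q : ℝ^4 → ℝ^3` to the projection along its kernel

PROOF. The kernel of `q` is one-dimensional (`LinearMap.finrank_range_add_finrank_ker`), so it contains a vector
`x ≠ 0`, scaled to `x ∈ Sph`. `q (proj x v) = q v`. Values in `t.sem (proj x)` are orthogonal to `x` (induction;
for `rad`: convex hull of a subset of a linear subspace). `q` is injective on `{v | ∑ i, x i * v i = 0}`: if
`q v = 0` then `v = a • x`, and orthogonality gives `a = 0`.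
`transport_sem` by induction on `t`: every value for `q` is `q z'` with `z'` a value for `proj x`.
`const v`: `z' = proj x v`. `rad y`: `w i = q (w' i)`, `z ∈ convexHull (w '' A) = q '' convexHull (w' '' A)`
(`LinearMap.image_convexHull`), the same for `B`; the two preimages are orthogonal to `x` and have the same image,
so they are equal.
`Split 3` of `q ∘ z'` implies `Split 3` of `z'` in the same way (a preimage of `0` in the hull is orthogonal to `x`
and killed by `q`, hence `0`).
-/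

namespace TVD

/-- The linear functional `v ↦ ∑ i, x i * v i`. -/
private def dotL (x : Fin 4 → ℝ) : (Fin 4 → ℝ) →ₗ[ℝ] ℝ where
  toFun v := ∑ i, x i * v i
  map_add' u v := by
    simp [mul_add, Finset.sum_add_distrib]
  map_smul' a v := by
    simp only [Pi.smul_apply, smul_eq_mul, RingHom.id_apply, Finset.mul_sum]
    exact Finset.sum_congr rfl fun i _ => by ring

private theorem dotL_apply (x v : Fin 4 → ℝ) : dotL x v = ∑ i, x i * v i := rfl

private theorem dot_self {x : Fin 4 → ℝ} (hx : x ∈ Sph) : dotL x x = 1 := by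
  have h : ∑ i, x i ^ 2 = 1 := hx
  rw [dotL_apply, ← h]
  exact Finset.sum_congr rfl fun i _ => by ring

private theorem dot_proj {x : Fin 4 → ℝ} (hx : x ∈ Sph) (v : Fin 4 → ℝ) : dotL x (proj x v) = 0 := by
  have h : proj x v = v - (dotL x v) • x := rfl
  rw [h, map_sub, map_smul, dot_self hx]
  simp

/-- The convex hull of a set of vectors in the kernel lies in the kernel. -/
private theorem hull_ker (L : (Fin 4 → ℝ) →ₗ[ℝ] ℝ) (S : Set (Fin 4 → ℝ)) (hS : ∀ s ∈ S, L s = 0)
    (z : Fin 4 → ℝ) (hz : z ∈ convexHull ℝ S) : L z = 0 := by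
  have h : S ⊆ (LinearMap.ker L : Set (Fin 4 → ℝ)) := fun s hs => by
    simpa using hS s hs
  have h2 : convexHull ℝ S ⊆ (LinearMap.ker L : Set (Fin 4 → ℝ)) :=
    convexHull_min h (LinearMap.ker L).convex
  simpa using h2 hz

private theorem sem_orth {x : Fin 4 → ℝ} (hx : x ∈ Sph) (t : Tm) :
    ∀ z ∈ t.sem (proj x), dotL x z = 0 := by
  induction t with
  | const v =>
    intro z hz
    have h : z = proj x v := hz
    rw [h]
    exact dot_proj hx v
  | lin a b s t ihs iht =>
    intro z hz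
    obtain ⟨u, hu, w, hw, rfl⟩ := hz
    rw [map_add, map_smul, map_smul, ihs u hu, iht w hw]
    simp
  | rad y ih =>
    intro z hz
    obtain ⟨w, hw, A, B, hAB, hA, hB⟩ := hz
    refine hull_ker (dotL x) _ ?_ z hA
    rintro s ⟨i, _, rfl⟩
    exact ih i (w i) (hw i)

/-- Every value for `q` is the image of a value for `proj x`. -/
private theorem transport_sem {x : Fin 4 → ℝ} (hx : x ∈ Sph)
    (q : (Fin 4 → ℝ) →ₗ[ℝ] (Fin 3 → ℝ)) (hqx : q x = 0)
    (hinj : ∀ v, dotL x v = 0 → q v = 0 → v = 0) (t : Tm) :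
    ∀ z ∈ t.sem (fun v => q v), ∃ z' ∈ t.sem (proj x), q z' = z := by
  induction t with
  | const v =>
    intro z hz
    have h : z = q v := hz
    refine ⟨proj x v, rfl, ?_⟩
    have h2 : proj x v = v - (dotL x v) • x := rfl
    rw [h, h2, map_sub, map_smul, hqx]
    simp
  | lin a b s t ihs iht =>
    intro z hz
    obtain ⟨u, hu, w, hw, rfl⟩ := hz
    obtain ⟨u', hu', rfl⟩ := ihs u hu
    obtain ⟨w', hw', rfl⟩ := iht w hw
    refine ⟨a • u' + b • w', ⟨u', hu', w', hw', rfl⟩, ?_⟩
    rw [map_add, map_smul, map_smul]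
  | rad y ih =>
    intro z hz
    obtain ⟨w, hw, A, B, hAB, hA, hB⟩ := hz
    choose w' hw' hqw using fun i => ih i (w i) (hw i)
    have himg : ∀ S : Set (Fin 5), w '' S = q '' (w' '' S) := by
      intro S
      rw [Set.image_image]
      exact Set.image_congr fun i _ => (hqw i).symm
    rw [himg A, ← LinearMap.image_convexHull] at hA
    rw [himg B, ← LinearMap.image_convexHull] at hB
    obtain ⟨zA, hzA, hqA⟩ := hA
    obtain ⟨zB, hzB, hqB⟩ := hB
    have horth : ∀ S : Set (Fin 5), ∀ s ∈ w' '' S, dotL x s = 0 := by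
      rintro S s ⟨i, _, rfl⟩
      exact sem_orth hx (y i) (w' i) (hw' i)
    have hoA := hull_ker (dotL x) _ (horth A) zA hzA
    have hoB := hull_ker (dotL x) _ (horth B) zB hzB
    have heq : zA - zB = 0 := by
      apply hinj
      · rw [map_sub, hoA, hoB, sub_zero]
      · rw [map_sub, hqA, hqB, sub_self]
    have heq2 : zA = zB := sub_eq_zero.mp heq
    refine ⟨zA, ⟨w', hw', A, B, hAB, hzA, ?_⟩, hqA⟩
    rw [heq2]
    exact hzB

/-- The kernel of a surjection `ℝ^4 → ℝ^3` is a line. -/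
private theorem exists_ker (q : (Fin 4 → ℝ) →ₗ[ℝ] (Fin 3 → ℝ)) (hq : Function.Surjective q) :
    ∃ x ∈ Sph, q x = 0 ∧ ∀ v, dotL x v = 0 → q v = 0 → v = 0 := by
  have hfr : Module.finrank ℝ (LinearMap.ker q) = 1 := by
    have h := LinearMap.finrank_range_add_finrank_ker q
    rw [LinearMap.range_eq_top.mpr hq, finrank_top] at h
    simp only [Module.finrank_fintype_fun_eq_card, Fintype.card_fin] at h
    omega
  obtain ⟨⟨y, hy⟩, hy0, hspan⟩ := finrank_eq_one_iff'.mp hfr
  have hyne : y ≠ 0 := fun h => hy0 (by simp [h])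
  have hqy : q y = 0 := by simpa using hy
  have hpos : 0 < ∑ i, y i ^ 2 := by
    obtain ⟨i, hi⟩ := Function.ne_iff.mp hyne
    exact Finset.sum_pos' (fun j _ => sq_nonneg _) ⟨i, Finset.mem_univ _, by
      have : y i ≠ 0 := hi
      positivity⟩
  set n : ℝ := Real.sqrt (∑ i, y i ^ 2) with hn
  have hnpos : 0 < n := Real.sqrt_pos.mpr hpos
  have hn2 : n ^ 2 = ∑ i, y i ^ 2 := Real.sq_sqrt hpos.le
  have hxS : (n⁻¹ • y) ∈ Sph := by
    show ∑ i, (n⁻¹ • y) i ^ 2 = 1
    simp only [Pi.smul_apply, smul_eq_mul, mul_pow]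
    rw [← Finset.mul_sum, ← hn2, ← mul_pow, inv_mul_cancel₀ hnpos.ne', one_pow]
  refine ⟨n⁻¹ • y, hxS, by rw [map_smul, hqy, smul_zero], ?_⟩
  intro v hv hqv
  obtain ⟨c, hc⟩ := hspan ⟨v, by simpa using hqv⟩
  have hcv : c • y = v := by
    have := congrArg Subtype.val hc
    simpa using this
  have hv2 : v = (c * n) • (n⁻¹ • y) := by
    rw [smul_smul, mul_assoc, mul_inv_cancel₀ hnpos.ne', mul_one, hcv]
  rw [hv2, map_smul, dot_self hxS, smul_eq_mul, mul_one] at hv
  rw [hv2, hv, zero_smul]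

theorem transport (t : Fin 9 → Tm)
    (ht : ∀ x ∈ Sph, ∀ z : Fin 9 → (Fin 4 → ℝ), (∀ l, z l ∈ (t l).sem (proj x)) → ¬ Split 3 z)
    (q : (Fin 4 → ℝ) →ₗ[ℝ] (Fin 3 → ℝ)) (hq : Function.Surjective q)
    (z : Fin 9 → (Fin 3 → ℝ)) (hz : ∀ l, z l ∈ (t l).sem (fun v => q v)) : ¬ Split 3 z := by
  obtain ⟨x, hx, hqx, hinj⟩ := exists_ker q hq
  choose z' hz' hqz using fun l => transport_sem hx q hqx hinj (t l) (z l) (hz l)
  rintro ⟨A, hdisj, hA⟩
  refine ht x hx z' hz' ⟨A, hdisj, fun j => ?_⟩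
  have himg : z '' A j = q '' (z' '' A j) := by
    rw [Set.image_image]
    exact Set.image_congr fun i _ => (hqz i).symm
  have h := hA j
  rw [himg, ← LinearMap.image_convexHull] at h
  obtain ⟨u, hu, hqu⟩ := h
  have hou : dotL x u = 0 := by
    refine hull_ker (dotL x) _ ?_ u hu
    rintro s ⟨i, _, rfl⟩
    exact sem_orth hx (t i) (z' i) (hz' i)
  have hu0 : u = 0 := hinj u hou hqu
  rw [hu0] at hu
  exact hu

end TVD
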