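import Pool.Agent.H47.TVD.Homog
import Pool.Agent.H47.TVD.Transport

set_option autoImplicit false

/-! # AMain: (A) -/

namespace TVD

theorem a_main (h : StatementBC) : ¬ TVStatement := by
  intro H
  obtain ⟨t, ht⟩ := h
  obtain ⟨c, io, v, hc, hq⟩ := compile_main t
  obtain ⟨q, hv, hs⟩ := homog H c hc v
  obtain ⟨h1, h2⟩ := hq q hv
  exact transport t ht (q ∘ₗ io) h1 (fun l => q (v l)) (fun l => h2 l) hs

end TVD
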