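import Pool.Agent.H47.TVD.Defs

set_option autoImplicit false

/-!
# AffForm: the frozen statement for families of points (not necessarily different), in coordinates

`aff_inj` (all `p i` injective): apply `H` with `S i = Finset.univ.image (p i)` (card `N i`). We get `c` and a flat `D`
with direction `W` of dimension `k`. `D` is nonempty (`r 0 ≥ 1`, the intersection with a hull is nonempty), take
`y0 ∈ D ∩ convexHull {x | x ∈ S 0 ∧ c 0 x = 0}`, so `‖y0‖ ≤ R` for every `R` with `‖p i l‖ ≤ R` for all `i, l`. Let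
`a` be an orthonormal basis of `Wᗮ` (dimension `d - k`), `b s = ⟪a s, y0⟫`, `|b s| ≤ R`. For `y ∈ D`:
`⟪a s, y⟫ = b s`. With `A j = {l | c i (p i l) = j}` (`j < r i`): the affine map `y ↦ (⟪a s, y⟫ - b s)_s` sends a
point of `D ∩ convexHull (p i '' A j)` to `0`.

`aff_form` (general): choose injective `p_n i → p i` (`p_n i l = p i l + (1/(n+1)) * M l` ... for instance: the set of
injective families is dense; or `p_n i l = p i l + τ_n * l • e` with `e` a fixed unit vector, injective for all but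
finitely many `τ`; `d ≥ 1`). The parameters `(a, b)` of `aff_inj` for `p_n` lie in the compact set
`{(a, b) | ‖a s‖ ≤ 1, |b s| ≤ R}`; take a convergent subsequence. Orthonormality is a closed condition, and
The condition `w ∈ Split (r i)` is closed in `w : Fin (N i) → (Fin (d-k) → ℝ)` (finite union over the choices `A : Fin r → Set _`
of finite intersections of the closed sets `{w | 0 ∈ convexHull (w '' A)}`; compare
`Pool/Agent/H11/TV/Closed.lean`).
-/

namespace TVD

/-- The frozen statement S09379. -/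
def TVStatement : Prop :=
    ∀ (d k : ℕ), k + 1 ≤ d → ∀ (r : Fin (k + 1) → ℕ), (∀ i, 1 ≤ r i) →
    ∀ (S : Fin (k + 1) → Finset (EuclideanSpace ℝ (Fin d))),
      (∀ i, (S i).card = (r i - 1) * (d - k + 1) + 1) →
      ∃ c : Fin (k + 1) → EuclideanSpace ℝ (Fin d) → ℕ,
        (∀ i, ∀ x ∈ S i, c i x < r i) ∧
        (∀ i, ∀ j < r i, ∃ x ∈ S i, c i x = j) ∧
        ∃ D : AffineSubspace ℝ (EuclideanSpace ℝ (Fin d)),
          Module.finrank ℝ D.direction = k ∧
          ∀ i, ∀ j < r i,
            ((D : Set (EuclideanSpace ℝ (Fin d))) ∩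
              convexHull ℝ {x | x ∈ S i ∧ c i x = j}).Nonempty

private theorem mem_hull_iff {ι κ : Type} [Fintype ι] [DecidableEq ι] (w : ι → (κ → ℝ))
    (A : Set ι) : (0 : κ → ℝ) ∈ convexHull ℝ (w '' A) ↔
      ∃ μ ∈ convexHull ℝ ((fun i : ι => (Pi.single i 1 : ι → ℝ)) '' A), ∑ i, μ i • w i = 0 := by
  have h1 : w '' A = (Fintype.linearCombination ℝ w) ''
      ((fun i : ι => (Pi.single i 1 : ι → ℝ)) '' A) := by
    rw [Set.image_image]
    refine Set.image_congr fun i _ => ?_
    rw [Fintype.linearCombination_apply_single, one_smul]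
  rw [h1, ← LinearMap.image_convexHull]
  simp only [Set.mem_image, Fintype.linearCombination_apply]

private theorem isClosed_hull {ι κ : Type} [Fintype ι] [Fintype κ] (A : Set ι) :
    IsClosed {w : ι → (κ → ℝ) | (0 : κ → ℝ) ∈ convexHull ℝ (w '' A)} := by
  classical
  set K : Set (ι → ℝ) := convexHull ℝ ((fun i : ι => (Pi.single i 1 : ι → ℝ)) '' A) with hK
  have hKc : IsCompact K := Set.Finite.isCompact_convexHull (𝕜 := ℝ) (A.toFinite.image _)
  have : CompactSpace K := isCompact_iff_compactSpace.1 hKc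
  have h1 : {w : ι → (κ → ℝ) | (0 : κ → ℝ) ∈ convexHull ℝ (w '' A)} =
      Prod.snd '' {p : K × (ι → (κ → ℝ)) | ∑ i, (p.1 : ι → ℝ) i • p.2 i = 0} := by
    ext w
    simp only [Set.mem_ofPred_eq, Set.mem_image]
    rw [mem_hull_iff]
    constructor
    · rintro ⟨μ, hμ, h⟩
      exact ⟨(⟨μ, hμ⟩, w), h, rfl⟩
    · rintro ⟨⟨μ, w'⟩, h, rfl⟩
      exact ⟨μ.1, μ.2, h⟩
  rw [h1]
  refine isClosedMap_snd_of_compactSpace _ ?_
  refine isClosed_eq ?_ continuous_const
  refine continuous_finsetSum _ fun i _ => ?_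
  exact ((continuous_apply i).comp (continuous_subtype_val.comp continuous_fst)).smul
    ((continuous_apply i).comp continuous_snd)

/-- Being split is a closed condition. -/
theorem isClosed_split {ι κ : Type} [Fintype ι] [Fintype κ] (r : ℕ) :
    IsClosed {w : ι → (κ → ℝ) | Split r w} := by
  classical
  have h1 : {w : ι → (κ → ℝ) | Split r w} =
      ⋃ A : {A : Fin r → Set ι // ∀ i j, i ≠ j → Disjoint (A i) (A j)},
        ⋂ j : Fin r, {w : ι → (κ → ℝ) | (0 : κ → ℝ) ∈ convexHull ℝ (w '' A.1 j)} := by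
    ext w
    simp only [Set.mem_ofPred_eq, Set.mem_iUnion, Set.mem_iInter, Split]
    constructor
    · rintro ⟨A, hA, h⟩
      exact ⟨⟨A, hA⟩, h⟩
    · rintro ⟨⟨A, hA⟩, h⟩
      exact ⟨A, hA, h⟩
  rw [h1]
  exact isClosed_iUnion_of_finite fun A => isClosed_iInter fun j => isClosed_hull _

theorem aff_inj (H : TVStatement) (d k : ℕ) (hk : k + 1 ≤ d) (r : Fin (k + 1) → ℕ)
    (hr : ∀ i, 1 ≤ r i) (N : Fin (k + 1) → ℕ) (hN : ∀ i, N i = (r i - 1) * (d - k + 1) + 1)
    (p : ∀ i, Fin (N i) → EuclideanSpace ℝ (Fin d)) (hp : ∀ i, Function.Injective (p i))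
    (R : ℝ) (hR : ∀ i l, ‖p i l‖ ≤ R) :
    ∃ (a : Fin (d - k) → EuclideanSpace ℝ (Fin d)) (b : Fin (d - k) → ℝ), Orthonormal ℝ a ∧
      (∀ s, |b s| ≤ R) ∧
      ∀ i, Split (r i) (fun l => (fun s => inner ℝ (a s) (p i l) - b s : Fin (d - k) → ℝ)) := by
  classical
  obtain ⟨c, -, -, D, hDk, hD⟩ := H d k hk r hr (fun i => Finset.univ.image (p i)) (fun i => by
    rw [Finset.card_image_of_injective _ (hp i), Finset.card_univ, Fintype.card_fin, hN i])
  obtain ⟨y0, hy0D, hy0⟩ := hD 0 0 (hr 0)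
  have hy0R : ‖y0‖ ≤ R := by
    have h1 : convexHull ℝ {x | x ∈ Finset.univ.image (p 0) ∧ c 0 x = 0} ⊆
        Metric.closedBall (0 : EuclideanSpace ℝ (Fin d)) R := by
      refine convexHull_min ?_ (convex_closedBall _ _)
      rintro x ⟨hx, -⟩
      obtain ⟨l, -, rfl⟩ := Finset.mem_image.1 hx
      rw [mem_closedBall_zero_iff]
      exact hR 0 l
    exact mem_closedBall_zero_iff.1 (h1 hy0)
  set W : Submodule ℝ (EuclideanSpace ℝ (Fin d)) := D.direction with hW
  have hfin : Module.finrank ℝ Wᗮ = d - k := by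
    have h1 := W.finrank_add_finrank_orthogonal
    rw [hDk, finrank_euclideanSpace_fin] at h1
    omega
  let e : OrthonormalBasis (Fin (d - k)) ℝ Wᗮ :=
    (stdOrthonormalBasis ℝ Wᗮ).reindex (finCongr hfin)
  have horth : Orthonormal ℝ (fun s => ((e s : Wᗮ) : EuclideanSpace ℝ (Fin d))) :=
    e.orthonormal.comp_linearIsometry Wᗮ.subtypeₗᵢ
  refine ⟨fun s => ((e s : Wᗮ) : EuclideanSpace ℝ (Fin d)),
    fun s => inner ℝ ((e s : Wᗮ) : EuclideanSpace ℝ (Fin d)) y0, horth, fun s => ?_, fun i => ?_⟩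
  · refine (abs_real_inner_le_norm _ _).trans ?_
    have h1 : ‖((e s : Wᗮ) : EuclideanSpace ℝ (Fin d))‖ = 1 := horth.1 s
    rw [h1, one_mul]
    exact hy0R
  · refine ⟨fun j => {l | c i (p i l) = (j : ℕ)}, ?_, fun j => ?_⟩
    · intro j j' hjj'
      rw [Set.disjoint_left]
      intro l hl hl'
      apply hjj'
      apply Fin.ext
      rw [Set.mem_ofPred_eq] at hl hl'
      rw [← hl, ← hl']
    · obtain ⟨z, hzD, hz⟩ := hD i j j.2
      let Φ : EuclideanSpace ℝ (Fin d) →ᵃ[ℝ] (Fin (d - k) → ℝ) :=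
        { toFun := fun y s => inner ℝ ((e s : Wᗮ) : EuclideanSpace ℝ (Fin d)) y -
            inner ℝ ((e s : Wᗮ) : EuclideanSpace ℝ (Fin d)) y0
          linear :=
            { toFun := fun y s => inner ℝ ((e s : Wᗮ) : EuclideanSpace ℝ (Fin d)) y
              map_add' := fun x y => by funext s; simp [inner_add_right]
              map_smul' := fun t x => by funext s; simp [inner_smul_right] }
          map_vadd' := fun x y => by
            funext s
            simp only [vadd_eq_add, inner_add_right, LinearMap.coe_mk, AddHom.coe_mk, Pi.add_apply]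
            ring }
      have hΦz : Φ z = 0 := by
        funext s
        show inner ℝ ((e s : Wᗮ) : EuclideanSpace ℝ (Fin d)) z -
            inner ℝ ((e s : Wᗮ) : EuclideanSpace ℝ (Fin d)) y0 = 0
        rw [← inner_sub_right]
        have h1 : z - y0 ∈ W := by
          have := AffineSubspace.vsub_mem_direction hzD hy0D
          simpa using this
        rw [real_inner_comm]
        exact (Submodule.mem_orthogonal W _).1 (e s).2 _ h1
      have h2 : Φ z ∈ convexHull ℝ (Φ '' {x | x ∈ Finset.univ.image (p i) ∧ c i x = j}) := by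
        rw [← AffineMap.image_convexHull]
        exact ⟨z, hz, rfl⟩
      rw [hΦz] at h2
      refine convexHull_mono ?_ h2
      rintro _ ⟨x, ⟨hx, hcx⟩, rfl⟩
      obtain ⟨l, -, rfl⟩ := Finset.mem_image.1 hx
      exact ⟨l, hcx, rfl⟩

theorem aff_form (H : TVStatement) (d k : ℕ) (hk : k + 1 ≤ d) (r : Fin (k + 1) → ℕ)
    (hr : ∀ i, 1 ≤ r i) (N : Fin (k + 1) → ℕ) (hN : ∀ i, N i = (r i - 1) * (d - k + 1) + 1)
    (p : ∀ i, Fin (N i) → EuclideanSpace ℝ (Fin d)) :
    ∃ (a : Fin (d - k) → EuclideanSpace ℝ (Fin d)) (b : Fin (d - k) → ℝ), Orthonormal ℝ a ∧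
      ∀ i, Split (r i) (fun l => (fun s => inner ℝ (a s) (p i l) - b s : Fin (d - k) → ℝ)) := by
  classical
  -- a unit vector
  set e : EuclideanSpace ℝ (Fin d) := EuclideanSpace.single ⟨0, by omega⟩ (1 : ℝ) with he
  have hen : ‖e‖ = 1 := by simp [he]
  have he0 : e ≠ 0 := by
    intro h; rw [h, norm_zero] at hen; exact zero_ne_one hen
  set τ : ℕ → ℝ := fun n => 1 / ((n : ℝ) + 1) with hτ
  have hτ0 : ∀ n, 0 < τ n := fun n => by simp only [hτ]; positivity
  have hτ1 : ∀ n, τ n ≤ 1 := fun n => by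
    simp only [hτ]
    rw [div_le_one (by positivity)]
    have : (0 : ℝ) ≤ n := Nat.cast_nonneg n
    linarith
  have hτlim : Filter.Tendsto τ Filter.atTop (nhds 0) := tendsto_one_div_add_atTop_nhds_zero_nat
  let pn : ℕ → ∀ i, Fin (N i) → EuclideanSpace ℝ (Fin d) :=
    fun n i l => p i l + (τ n * (l : ℕ)) • e
  -- eventually injective
  have hinj : ∀ᶠ n in Filter.atTop, ∀ i, Function.Injective (pn n i) := by
    have h1 : ∀ i, ∀ l l' : Fin (N i), l ≠ l' → ∀ᶠ n in Filter.atTop, pn n i l ≠ pn n i l' := by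
      intro i l l' hll'
      have hne : ((l : ℕ) : ℝ) - ((l' : ℕ) : ℝ) ≠ 0 := by
        intro h
        apply hll'
        apply Fin.ext
        have : ((l : ℕ) : ℝ) = ((l' : ℕ) : ℝ) := by linarith
        exact_mod_cast this
      have key : ∀ n, pn n i l = pn n i l' →
          (τ n * (((l : ℕ) : ℝ) - ((l' : ℕ) : ℝ))) • e = p i l' - p i l := by
        intro n h
        have h2 : p i l + (τ n * (l : ℕ)) • e = p i l' + (τ n * (l' : ℕ)) • e := h
        have h3 : (τ n * (l : ℕ)) • e - (τ n * (l' : ℕ)) • e = p i l' - p i l := by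
          rw [sub_eq_sub_iff_add_eq_add, add_comm, h2]
        rw [← h3, ← sub_smul]
        congr 1
        ring
      by_cases hpp : p i l' = p i l
      · refine Filter.Eventually.of_forall fun n h => ?_
        have h2 := key n h
        rw [hpp, sub_self, smul_eq_zero] at h2
        rcases h2 with h2 | h2
        · rcases mul_eq_zero.1 h2 with h3 | h3
          · exact (hτ0 n).ne' h3
          · exact hne h3
        · exact he0 h2
      · have hpos : 0 < ‖p i l' - p i l‖ := norm_pos_iff.2 (sub_ne_zero.2 hpp)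
        have hlim2 : Filter.Tendsto (fun n => τ n * |((l : ℕ) : ℝ) - ((l' : ℕ) : ℝ)|)
            Filter.atTop (nhds 0) := by
          have := hτlim.mul_const (|((l : ℕ) : ℝ) - ((l' : ℕ) : ℝ)|)
          simpa using this
        filter_upwards [hlim2.eventually (gt_mem_nhds hpos)] with n hn h
        have h2 := key n h
        have h3 := congrArg norm h2
        rw [norm_smul, hen, mul_one, Real.norm_eq_abs, abs_mul, abs_of_pos (hτ0 n)] at h3
        rw [h3] at hn
        exact lt_irrefl _ hn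
    have h2 : ∀ᶠ n in Filter.atTop, ∀ i, ∀ l l' : Fin (N i), l ≠ l' → pn n i l ≠ pn n i l' := by
      refine Filter.eventually_all.2 fun i => Filter.eventually_all.2 fun l =>
        Filter.eventually_all.2 fun l' => ?_
      by_cases hll' : l = l'
      · exact Filter.Eventually.of_forall fun n h => absurd hll' h
      · filter_upwards [h1 i l l' hll'] with n hn _
        exact hn
    filter_upwards [h2] with n hn i l l' h
    by_contra hll'
    exact hn i l l' hll' h
  -- bound
  set R : ℝ := ∑ i, ∑ l : Fin (N i), (‖p i l‖ + ((l : ℕ) : ℝ)) with hR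
  have hbd : ∀ n i l, ‖pn n i l‖ ≤ R := by
    intro n i l
    have h1 : ‖pn n i l‖ ≤ ‖p i l‖ + ((l : ℕ) : ℝ) := by
      refine (norm_add_le _ _).trans ?_
      rw [norm_smul, hen, mul_one, Real.norm_eq_abs, abs_mul, abs_of_pos (hτ0 n),
        abs_of_nonneg (Nat.cast_nonneg _)]
      have h2 : τ n * ((l : ℕ) : ℝ) ≤ 1 * ((l : ℕ) : ℝ) :=
        mul_le_mul_of_nonneg_right (hτ1 n) (Nat.cast_nonneg _)
      linarith
    have h2 : ‖p i l‖ + ((l : ℕ) : ℝ) ≤ ∑ l : Fin (N i), (‖p i l‖ + ((l : ℕ) : ℝ)) :=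
      Finset.single_le_sum (f := fun l : Fin (N i) => (‖p i l‖ + ((l : ℕ) : ℝ)))
        (fun l _ => by positivity) (Finset.mem_univ l)
    have h3 : ∑ l : Fin (N i), (‖p i l‖ + ((l : ℕ) : ℝ)) ≤ R :=
      Finset.single_le_sum (f := fun i => ∑ l : Fin (N i), (‖p i l‖ + ((l : ℕ) : ℝ)))
        (fun i _ => Finset.sum_nonneg fun l _ => by positivity) (Finset.mem_univ i)
    linarith
  obtain ⟨n0, hn0⟩ := Filter.eventually_atTop.1 hinj
  have hex : ∀ n : ℕ, ∃ q : (Fin (d - k) → EuclideanSpace ℝ (Fin d)) × (Fin (d - k) → ℝ),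
      Orthonormal ℝ q.1 ∧ (∀ s, |q.2 s| ≤ R) ∧
      ∀ i, Split (r i) (fun l => (fun s => inner ℝ (q.1 s) (pn (n0 + n) i l) - q.2 s :
        Fin (d - k) → ℝ)) := by
    intro n
    obtain ⟨a, b, h1, h2, h3⟩ := aff_inj H d k hk r hr N hN (pn (n0 + n))
      (hn0 (n0 + n) (by omega)) R (fun i l => hbd _ i l)
    exact ⟨(a, b), h1, h2, h3⟩
  choose q hq1 hq2 hq3 using hex
  set K : Set ((Fin (d - k) → EuclideanSpace ℝ (Fin d)) × (Fin (d - k) → ℝ)) :=
    (Set.pi Set.univ fun _ => Metric.closedBall (0 : EuclideanSpace ℝ (Fin d)) 1) ×ˢ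
      (Set.pi Set.univ fun _ => Set.Icc (-R) R) with hK
  have hKc : IsCompact K :=
    (isCompact_univ_pi fun _ => isCompact_closedBall _ _).prod (isCompact_univ_pi fun _ => isCompact_Icc)
  have hqK : ∀ n, q n ∈ K := by
    intro n
    refine ⟨fun s _ => ?_, fun s _ => ?_⟩
    · rw [mem_closedBall_zero_iff, (hq1 n).1 s]
    · exact abs_le.1 (hq2 n s)
  obtain ⟨⟨a, b⟩, -, φ, hφ, hlim⟩ := hKc.tendsto_subseq hqK
  have hlima : ∀ s, Filter.Tendsto (fun n => (q (φ n)).1 s) Filter.atTop (nhds (a s)) := by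
    intro s
    have h1 : Filter.Tendsto (fun n => (q (φ n)).1) Filter.atTop (nhds a) :=
      (continuous_fst.tendsto _).comp hlim
    exact (tendsto_pi_nhds.1 h1) s
  have hlimb : ∀ s, Filter.Tendsto (fun n => (q (φ n)).2 s) Filter.atTop (nhds (b s)) := by
    intro s
    have h1 : Filter.Tendsto (fun n => (q (φ n)).2) Filter.atTop (nhds b) :=
      (continuous_snd.tendsto _).comp hlim
    exact (tendsto_pi_nhds.1 h1) s
  refine ⟨a, b, ?_, fun i => ?_⟩
  · rw [orthonormal_iff_ite]
    intro s t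
    have h1 : Filter.Tendsto (fun n => inner ℝ ((q (φ n)).1 s) ((q (φ n)).1 t)) Filter.atTop
        (nhds (inner ℝ (a s) (a t))) := (hlima s).inner (hlima t)
    have h2 : (fun n => inner ℝ ((q (φ n)).1 s) ((q (φ n)).1 t)) =
        fun _ => if s = t then (1 : ℝ) else 0 := by
      funext n
      exact (orthonormal_iff_ite.1 (hq1 (φ n))) s t
    rw [h2] at h1
    exact tendsto_nhds_unique h1 tendsto_const_nhds
  · have hpn : ∀ l, Filter.Tendsto (fun n => pn (n0 + φ n) i l) Filter.atTop (nhds (p i l)) := by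
      intro l
      have h1 : Filter.Tendsto (fun n => n0 + φ n) Filter.atTop Filter.atTop :=
        Filter.tendsto_atTop_mono (fun n => Nat.le_add_left _ _) hφ.tendsto_atTop
      have h2 := (hτlim.comp h1).mul_const (((l : ℕ) : ℝ))
      have h3 := (h2.smul_const e).const_add (p i l)
      simpa using h3
    have h4 : Filter.Tendsto (fun n => (fun l => (fun s => inner ℝ ((q (φ n)).1 s)
        (pn (n0 + φ n) i l) - (q (φ n)).2 s : Fin (d - k) → ℝ))) Filter.atTop
        (nhds (fun l => (fun s => inner ℝ (a s) (p i l) - b s : Fin (d - k) → ℝ))) := by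
      refine tendsto_pi_nhds.2 fun l => tendsto_pi_nhds.2 fun s => ?_
      exact ((hlima s).inner (hpn l)).sub (hlimb s)
    exact (isClosed_split (ι := Fin (N i)) (κ := Fin (d - k)) (r i)).mem_of_tendsto h4
      (Filter.Eventually.of_forall fun n => hq3 (φ n) i)

end TVD
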