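import Pool.Agent.H47.TVD.Defs

set_option autoImplicit false

/-!
# Chart: the affine chart `om c x ≠ 0` of projective space

`w k = e_{k+1} - c^(k+1) e_0`, `x = om c x • e_0 + ∑ k, x (k+1) • w k`.
`proj x x = 0` for `x ∈ Sph` gives `proj_rel`.
`proj_indep`: if `∑ a k • proj x (w k) = 0` then `∑ a k • w k = μ • x`, apply `om c` (it vanishes on all `w k`):
`μ * om c x = 0`, so `μ = 0`, and then `a = 0` (coordinates 1, 2, 3).
-/

namespace TVD

def om (c : ℝ) (x : Fin 4 → ℝ) : ℝ := x 0 + c * x 1 + c ^ 2 * x 2 + c ^ 3 * x 3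

def e0 : Fin 4 → ℝ := ![1, 0, 0, 0]

def wv (c : ℝ) (k : Fin 3) : Fin 4 → ℝ := ![![-c, 1, 0, 0], ![-c ^ 2, 0, 1, 0], ![-c ^ 3, 0, 0, 1]] k

/-- The compact part of the chart. -/
def KK (c δ : ℝ) : Set (Fin 4 → ℝ) := {x | x ∈ Sph ∧ δ ≤ |om c x|}

theorem isCompact_Sph : IsCompact Sph := by
  have hcl : IsClosed Sph := by
    have hc : Continuous (fun x : Fin 4 → ℝ => ∑ i, x i ^ 2) := by fun_prop
    exact isClosed_eq hc continuous_const
  refine Metric.isCompact_of_isClosed_isBounded hcl ?_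
  refine (Metric.isBounded_closedBall (x := (0 : Fin 4 → ℝ)) (r := 1)).subset ?_
  intro x hx
  rw [mem_closedBall_zero_iff, pi_norm_le_iff_of_nonneg zero_le_one]
  intro i
  have h1 : x i ^ 2 ≤ ∑ j, x j ^ 2 :=
    Finset.single_le_sum (f := fun j => x j ^ 2) (fun j _ => sq_nonneg _) (Finset.mem_univ i)
  have h2 : ∑ j, x j ^ 2 = 1 := hx
  rw [Real.norm_eq_abs]
  rw [← sq_le_one_iff_abs_le_one]
  linarith

private theorem chart_om_cont (c : ℝ) : Continuous (om c) := by
  unfold om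
  fun_prop

theorem isCompact_KK (c δ : ℝ) : IsCompact (KK c δ) := by
  have h : KK c δ = Sph ∩ {x | δ ≤ |om c x|} := rfl
  rw [h]
  refine isCompact_Sph.inter_right ?_
  exact isClosed_le continuous_const (chart_om_cont c).abs

theorem neg_mem_Sph {x : Fin 4 → ℝ} (hx : x ∈ Sph) : -x ∈ Sph := by
  show ∑ i, (-x) i ^ 2 = 1
  have h : ∑ i, x i ^ 2 = 1 := hx
  rw [← h]
  refine Finset.sum_congr rfl fun i _ => ?_
  rw [Pi.neg_apply, neg_sq]

theorem proj_add (x v w : Fin 4 → ℝ) : proj x (v + w) = proj x v + proj x w := by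
  unfold proj
  ext j
  simp only [Pi.sub_apply, Pi.add_apply, Pi.smul_apply, smul_eq_mul, Fin.sum_univ_four]
  ring

theorem proj_smul (x : Fin 4 → ℝ) (a : ℝ) (v : Fin 4 → ℝ) : proj x (a • v) = a • proj x v := by
  unfold proj
  ext j
  simp only [Pi.sub_apply, Pi.smul_apply, smul_eq_mul, Fin.sum_univ_four]
  ring

theorem proj_self {x : Fin 4 → ℝ} (hx : x ∈ Sph) : proj x x = 0 := by
  have h : ∑ i, x i * x i = 1 := by
    have h1 : ∑ i, x i ^ 2 = 1 := hx
    rw [← h1]
    exact Finset.sum_congr rfl fun i _ => by ring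
  unfold proj
  rw [h, one_smul, sub_self]

theorem proj_of_orth {x v : Fin 4 → ℝ} (h : ∑ i, x i * v i = 0) : proj x v = v := by
  unfold proj
  rw [h, zero_smul, sub_zero]

theorem proj_orth {x : Fin 4 → ℝ} (hx : x ∈ Sph) (v : Fin 4 → ℝ) : ∑ i, x i * proj x v i = 0 := by
  have h1 : ∑ i, x i ^ 2 = 1 := hx
  unfold proj
  simp only [Pi.sub_apply, Pi.smul_apply, smul_eq_mul]
  have h2 : ∀ i, x i * (v i - (∑ j, x j * v j) * x i)
      = x i * v i - (∑ j, x j * v j) * x i ^ 2 := fun i => by ring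
  rw [Finset.sum_congr rfl fun i _ => h2 i, Finset.sum_sub_distrib, ← Finset.mul_sum, h1, mul_one,
    sub_self]

/-- Every vector in the coordinates of the chart. -/
theorem chart_decomp (c : ℝ) (v : Fin 4 → ℝ) :
    v = om c v • e0 + (v 1 • wv c 0 + v 2 • wv c 1 + v 3 • wv c 2) := by
  ext j
  fin_cases j <;> simp [om, e0, wv] <;> ring

theorem proj_rel (c : ℝ) {x : Fin 4 → ℝ} (hx : x ∈ Sph) (hc : om c x ≠ 0) :
    proj x (-e0) = (x 1 / om c x) • proj x (wv c 0) + (x 2 / om c x) • proj x (wv c 1) +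
      (x 3 / om c x) • proj x (wv c 2) := by
  have h1 := proj_self hx
  rw [chart_decomp c x] at h1
  have h2 : proj x (om c x • e0 + (x 1 • wv c 0 + x 2 • wv c 1 + x 3 • wv c 2)) = 0 := by
    rw [← chart_decomp c x]
    exact proj_self hx
  rw [proj_add, proj_add, proj_add, proj_smul, proj_smul, proj_smul, proj_smul] at h2
  have h3 : proj x (-e0) = -proj x e0 := by
    have : (-e0 : Fin 4 → ℝ) = (-1 : ℝ) • e0 := by simp
    rw [this, proj_smul, neg_one_smul]
  have h4 : om c x • proj x (-e0)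
      = x 1 • proj x (wv c 0) + x 2 • proj x (wv c 1) + x 3 • proj x (wv c 2) := by
    rw [h3, smul_neg]
    exact neg_eq_of_add_eq_zero_right h2
  have h5 : proj x (-e0) = (om c x)⁻¹ • (om c x • proj x (-e0)) := by
    rw [smul_smul, inv_mul_cancel₀ hc, one_smul]
  rw [h5, h4, smul_add, smul_add, smul_smul, smul_smul, smul_smul]
  simp only [div_eq_inv_mul]

theorem proj_indep (c : ℝ) {x : Fin 4 → ℝ} (hx : x ∈ Sph) (hc : om c x ≠ 0) :
    LinearIndependent ℝ ![proj x (wv c 0), proj x (wv c 1), proj x (wv c 2)] := by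
  rw [Fintype.linearIndependent_iff]
  intro g hg
  rw [Fin.sum_univ_three] at hg
  simp only [Matrix.cons_val_zero, Matrix.cons_val_one, Matrix.cons_val] at hg
  rw [← proj_smul, ← proj_smul, ← proj_smul, ← proj_add, ← proj_add] at hg
  set V := g 0 • wv c 0 + g 1 • wv c 1 + g 2 • wv c 2 with hV
  have h1 : V = (∑ i, x i * V i) • x := by
    have h2 : V - (∑ i, x i * V i) • x = 0 := hg
    exact sub_eq_zero.1 h2
  set μ := ∑ i, x i * V i with hμ
  have e0' : V 0 = -(g 0 * c) - g 1 * c ^ 2 - g 2 * c ^ 3 := by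
    rw [hV]
    simp [wv]
    ring
  have e1 : V 1 = g 0 := by
    rw [hV]
    simp [wv]
  have e2 : V 2 = g 1 := by
    rw [hV]
    simp [wv]
  have e3 : V 3 = g 2 := by
    rw [hV]
    simp [wv]
  have h2 : ∀ j, V j = μ * x j := by
    intro j
    conv_lhs => rw [h1]
    rfl
  have h3 : om c V = 0 := by
    unfold om
    rw [e0', e1, e2, e3]
    ring
  have h4 : om c V = μ * om c x := by
    unfold om
    rw [h2 0, h2 1, h2 2, h2 3]
    ring
  have h5 : μ = 0 := by
    rw [h4] at h3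
    exact (mul_eq_zero.1 h3).resolve_right hc
  have h6 : ∀ j, V j = 0 := by
    intro j
    rw [h2 j, h5, zero_mul]
  intro i
  fin_cases i
  · show g 0 = 0
    rw [← e1]
    exact h6 1
  · show g 1 = 0
    rw [← e2]
    exact h6 2
  · show g 2 = 0
    rw [← e3]
    exact h6 3

/-- A tangent vector in the chart. -/
theorem tangent_decomp (c : ℝ) {x s : Fin 4 → ℝ} (hx : x ∈ Sph) (hc : om c x ≠ 0)
    (hs : ∑ i, x i * s i = 0) :
    s = (s 1 - om c s * (x 1 / om c x)) • proj x (wv c 0) +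
      (s 2 - om c s * (x 2 / om c x)) • proj x (wv c 1) +
      (s 3 - om c s * (x 3 / om c x)) • proj x (wv c 2) := by
  have h1 : proj x s = s := proj_of_orth hs
  have h2 : proj x s = om c s • proj x e0 + (s 1 • proj x (wv c 0) + s 2 • proj x (wv c 1)
      + s 3 • proj x (wv c 2)) := by
    conv_lhs => rw [chart_decomp c s]
    rw [proj_add, proj_add, proj_add, proj_smul, proj_smul, proj_smul, proj_smul]
  have h3 : proj x e0 = -proj x (-e0) := by
    have : (-e0 : Fin 4 → ℝ) = (-1 : ℝ) • e0 := by simp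
    rw [this, proj_smul, neg_one_smul, neg_neg]
  rw [proj_rel c hx hc] at h3
  rw [h3] at h2
  rw [h1] at h2
  set A := proj x (wv c 0) with hA
  set A' := proj x (wv c 1) with hA'
  set A'' := proj x (wv c 2) with hA''
  set p := om c s with hp
  set o := om c x with ho
  ext j
  have h4 := congrFun h2 j
  simp only [Pi.add_apply, Pi.smul_apply, Pi.neg_apply, smul_eq_mul] at h4 ⊢
  linarith

end TVD
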