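import Pool.Agent.H47.TVD.AffForm
import Pool.Agent.H47.TVD.Chart

set_option autoImplicit false

/-!
# BC: margin, and the quaternion frame

PROOF. Let `f` be as in (C). For `x : Fin 4 → ℝ` put `J x y = y 0 • ![-x 1, x 0, x 3, -x 2] +
y 1 • ![-x 2, -x 3, x 0, x 1] + y 2 • ![-x 3, x 2, -x 1, x 0]` (linear in `y : Fin 3 → ℝ`, orthogonal to `x`, and
injective for `x ∈ Sph`: the three vectors are orthonormal). `s l x = J x (f x l)` is continuous on `Sph`, tangent,
and even (`J (-x) (-y) = J x y`). `¬ Split 3 (fun l => s l x)`: `Split` is reflected by injective linear maps.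
Margin: the set `O` of all `z : Fin 9 → (Fin 4 → ℝ)` with `¬ Split 3 z` is open (`isClosed_split`), the image of
`Sph` under `x ↦ (s l x)_l` is compact and contained in `O`, so there is `ε > 0` such that the `ε`-thickening is
contained in `O` (`IsCompact.exists_thickening_subset_open`). Apply (B) to each `s l` with this `ε`.
-/

namespace TVD

/-- `Split` is reflected by injective linear maps. -/
private theorem bc_split {ι V W : Type*} [AddCommGroup V] [Module ℝ V] [AddCommGroup W] [Module ℝ W]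
    {r : ℕ} (T : V →ₗ[ℝ] W) (hT : ∀ v, T v = 0 → v = 0) {w : ι → V}
    (h : Split r (fun l => T (w l))) : Split r w := by
  obtain ⟨A, hA, hc⟩ := h
  refine ⟨A, hA, fun j => ?_⟩
  have h1 := hc j
  have h2 : (fun l => T (w l)) '' A j = T '' (w '' A j) := by
    rw [Set.image_image]
  rw [h2, ← LinearMap.image_convexHull] at h1
  obtain ⟨v, hv, hv0⟩ := h1
  rw [hT v hv0] at hv
  exact hv

/-- The quaternion frame. -/
private def bc_J (x : Fin 4 → ℝ) : (Fin 3 → ℝ) →ₗ[ℝ] (Fin 4 → ℝ) where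
  toFun y := ![-(y 0 * x 1) - y 1 * x 2 - y 2 * x 3, y 0 * x 0 - y 1 * x 3 + y 2 * x 2,
    y 0 * x 3 + y 1 * x 0 - y 2 * x 1, -(y 0 * x 2) + y 1 * x 1 + y 2 * x 0]
  map_add' y z := by
    funext i
    fin_cases i <;> simp <;> ring
  map_smul' a y := by
    funext i
    fin_cases i <;> simp <;> ring

private theorem bc_J_apply (x : Fin 4 → ℝ) (y : Fin 3 → ℝ) :
    bc_J x y = ![-(y 0 * x 1) - y 1 * x 2 - y 2 * x 3, y 0 * x 0 - y 1 * x 3 + y 2 * x 2,
    y 0 * x 3 + y 1 * x 0 - y 2 * x 1, -(y 0 * x 2) + y 1 * x 1 + y 2 * x 0] := rfl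

private theorem bc_J_inj {x : Fin 4 → ℝ} (hx : x ∈ Sph) (y : Fin 3 → ℝ) (h : bc_J x y = 0) :
    y = 0 := by
  have hs : x 0 ^ 2 + x 1 ^ 2 + x 2 ^ 2 + x 3 ^ 2 = 1 := by
    have h1 : ∑ i, x i ^ 2 = 1 := hx
    rw [Fin.sum_univ_four] at h1
    exact h1
  have h0 : -(y 0 * x 1) - y 1 * x 2 - y 2 * x 3 = 0 := congrFun h 0
  have h1 : y 0 * x 0 - y 1 * x 3 + y 2 * x 2 = 0 := congrFun h 1
  have h2 : y 0 * x 3 + y 1 * x 0 - y 2 * x 1 = 0 := congrFun h 2
  have h3 : -(y 0 * x 2) + y 1 * x 1 + y 2 * x 0 = 0 := congrFun h 3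
  have e0 : y 0 = 0 := by
    linear_combination (-(x 1)) * h0 + x 0 * h1 + x 3 * h2 - x 2 * h3 - y 0 * hs
  have e1 : y 1 = 0 := by
    linear_combination (-(x 2)) * h0 - x 3 * h1 + x 0 * h2 + x 1 * h3 - y 1 * hs
  have e2 : y 2 = 0 := by
    linear_combination (-(x 3)) * h0 + x 2 * h1 - x 1 * h2 + x 0 * h3 - y 2 * hs
  funext i
  fin_cases i
  · exact e0
  · exact e1
  · exact e2

private theorem bc_J_tangent (x : Fin 4 → ℝ) (y : Fin 3 → ℝ) : ∑ i, x i * bc_J x y i = 0 := by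
  rw [Fin.sum_univ_four, bc_J_apply]
  show x 0 * (-(y 0 * x 1) - y 1 * x 2 - y 2 * x 3) + x 1 * (y 0 * x 0 - y 1 * x 3 + y 2 * x 2) +
    x 2 * (y 0 * x 3 + y 1 * x 0 - y 2 * x 1) + x 3 * (-(y 0 * x 2) + y 1 * x 1 + y 2 * x 0) = 0
  ring

private theorem bc_J_even (x : Fin 4 → ℝ) (y : Fin 3 → ℝ) : bc_J (-x) (-y) = bc_J x y := by
  rw [bc_J_apply, bc_J_apply]
  simp only [Pi.neg_apply]
  funext i
  fin_cases i <;> simp

theorem bc_main (hB : StatementB) (hC : StatementC) : StatementBC := by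
  obtain ⟨f, hf, hodd, hsp⟩ := hC
  obtain ⟨s, hsd⟩ : ∃ s : Fin 9 → (Fin 4 → ℝ) → (Fin 4 → ℝ), s = fun l x => bc_J x (f x l) :=
    ⟨_, rfl⟩
  have hfc : ∀ (l : Fin 9) (k : Fin 3), ContinuousOn (fun x => f x l k) Sph := by
    intro l k
    have h1 := continuousOn_pi.1 hf l
    exact continuousOn_pi.1 h1 k
  have hxc : ∀ i : Fin 4, ContinuousOn (fun x : Fin 4 → ℝ => x i) Sph := fun i =>
    (continuous_apply i).continuousOn
  have hcont : ∀ l, ContinuousOn (s l) Sph := by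
    intro l
    rw [hsd]
    apply continuousOn_pi.2
    intro i
    fin_cases i
    · exact ((((hfc l 0).mul (hxc 1)).neg).sub ((hfc l 1).mul (hxc 2))).sub
        ((hfc l 2).mul (hxc 3))
    · exact (((hfc l 0).mul (hxc 0)).sub ((hfc l 1).mul (hxc 3))).add ((hfc l 2).mul (hxc 2))
    · exact (((hfc l 0).mul (hxc 3)).add ((hfc l 1).mul (hxc 0))).sub ((hfc l 2).mul (hxc 1))
    · exact ((((hfc l 0).mul (hxc 2)).neg).add ((hfc l 1).mul (hxc 1))).add
        ((hfc l 2).mul (hxc 0))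
  have heven : ∀ l, ∀ x ∈ Sph, s l (-x) = s l x := by
    intro l x hx
    rw [hsd]
    show bc_J (-x) (f (-x) l) = bc_J x (f x l)
    rw [hodd x hx]
    exact bc_J_even x (f x l)
  have htan : ∀ l, ∀ x ∈ Sph, ∑ i, x i * s l x i = 0 := by
    intro l x _
    rw [hsd]
    exact bc_J_tangent x (f x l)
  have hns : ∀ x ∈ Sph, ¬ Split 3 (fun l => s l x) := by
    intro x hx h
    rw [hsd] at h
    exact hsp x hx (bc_split (bc_J x) (bc_J_inj hx) h)
  -- the margin
  have hO : IsOpen ({z : Fin 9 → (Fin 4 → ℝ) | Split 3 z}ᶜ) :=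
    (isClosed_split (ι := Fin 9) (κ := Fin 4) 3).isOpen_compl
  have hK : IsCompact ((fun x => fun l => s l x) '' Sph) :=
    isCompact_Sph.image_of_continuousOn (continuousOn_pi.2 fun l => hcont l)
  have hsub : ((fun x => fun l => s l x) '' Sph) ⊆ {z : Fin 9 → (Fin 4 → ℝ) | Split 3 z}ᶜ := by
    rintro z ⟨x, hx, rfl⟩
    exact hns x hx
  obtain ⟨ε, hε, hth⟩ := hK.exists_thickening_subset_open hO hsub
  choose t ht using fun l => hB (s l) (hcont l) (heven l) (htan l) ε hε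
  refine ⟨t, fun x hx z hz => ?_⟩
  have h1 : z ∈ Metric.thickening ε ((fun x => fun l => s l x) '' Sph) := by
    rw [Metric.mem_thickening_iff]
    refine ⟨fun l => s l x, ⟨x, hx, rfl⟩, ?_⟩
    rw [dist_pi_lt_iff hε]
    intro l
    rw [dist_eq_norm]
    exact ht l x hx (z l) (hz l)
  exact hth h1

end TVD
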