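import Pool.Agent.H47.TVD.Chart

set_option autoImplicit false

/-!
# Cover: every point of the sphere is outside of at most three of the 25 charts

PROOF. Let `cc p = 5 * p.1 + p.2` (25 different numbers). For every 4-element set `J` of pairs the continuous function
`x ↦ sup over J of |om (cc p) x|` (`Finset.sup'`, or the sum `∑ p ∈ J, |om (cc p) x|`) is positive on `Sph`: if
all four vanish then `x 0 + c x 1 + c^2 x 2 + c^3 x 3`, a polynomial of degree at most 3 in `c` with four roots, is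
zero (`Polynomial`, or Vandermonde `Matrix.det_vandermonde_ne_zero_iff`), so `x = 0`, impossible on `Sph`.
Compactness gives a positive lower bound `η J` of the sum; `δ = min over J of η J / 4`, at most.
If more than three pairs had `|om| < δ`, four of them would give a sum `< 4 δ ≤ η J`.
-/

namespace TVD

/-- The parameter of a pair. -/
def cc (p : Fin 5 × Fin 5) : ℝ := 5 * (p.1 : ℕ) + (p.2 : ℕ)

private theorem cover_cc_inj : Function.Injective cc := by
  rintro ⟨a, b⟩ ⟨a', b'⟩ h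
  unfold cc at h
  have h1 : 5 * (a : ℕ) + (b : ℕ) = 5 * (a' : ℕ) + (b' : ℕ) := by
    have h2 : ((5 * (a : ℕ) + (b : ℕ) : ℕ) : ℝ) = ((5 * (a' : ℕ) + (b' : ℕ) : ℕ) : ℝ) := by
      push_cast
      exact h
    exact_mod_cast h2
  have hb := b.2
  have hb' := b'.2
  have h3 : (a : ℕ) = (a' : ℕ) := by omega
  have h4 : (b : ℕ) = (b' : ℕ) := by omega
  rw [Fin.ext h3, Fin.ext h4]

private theorem cover_nonzero (J : Finset (Fin 5 × Fin 5)) (hJ : J.card = 4) (x : Fin 4 → ℝ)
    (hx : x ∈ Sph) : ∃ p ∈ J, om (cc p) x ≠ 0 := by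
  by_contra hcon
  push Not at hcon
  obtain ⟨P, hP⟩ : ∃ P : Polynomial ℝ, P = Polynomial.C (x 0) + Polynomial.C (x 1) * Polynomial.X +
      Polynomial.C (x 2) * Polynomial.X ^ 2 + Polynomial.C (x 3) * Polynomial.X ^ 3 := ⟨_, rfl⟩
  have hdeg : P.natDegree < 4 := by
    have h1 : P.natDegree ≤ 3 := by
      rw [hP]
      compute_degree
    omega
  have hzero : P = 0 := by
    apply Polynomial.eq_zero_of_natDegree_lt_card_of_eval_eq_zero' P (J.image cc)
    · intro i hi
      rw [Finset.mem_image] at hi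
      obtain ⟨p, hp, rfl⟩ := hi
      have h1 := hcon p hp
      unfold om at h1
      rw [hP]
      simp only [Polynomial.eval_add, Polynomial.eval_mul, Polynomial.eval_C, Polynomial.eval_X,
        Polynomial.eval_pow]
      linarith
    · rw [Finset.card_image_of_injective _ cover_cc_inj, hJ]
      exact hdeg
  have c0 : x 0 = 0 := by
    have h := congrArg (fun Q : Polynomial ℝ => Q.coeff 0) hzero
    rw [hP] at h
    simpa [Polynomial.coeff_X, Polynomial.coeff_C] using h
  have c1 : x 1 = 0 := by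
    have h := congrArg (fun Q : Polynomial ℝ => Q.coeff 1) hzero
    rw [hP] at h
    simpa [Polynomial.coeff_X, Polynomial.coeff_C, Polynomial.coeff_X_pow] using h
  have c2 : x 2 = 0 := by
    have h := congrArg (fun Q : Polynomial ℝ => Q.coeff 2) hzero
    rw [hP] at h
    simpa [Polynomial.coeff_X, Polynomial.coeff_C, Polynomial.coeff_X_pow] using h
  have c3 : x 3 = 0 := by
    have h := congrArg (fun Q : Polynomial ℝ => Q.coeff 3) hzero
    rw [hP] at h
    simpa [Polynomial.coeff_X, Polynomial.coeff_C, Polynomial.coeff_X_pow] using h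
  have h2 : ∑ i, x i ^ 2 = 1 := hx
  rw [Fin.sum_univ_four, c0, c1, c2, c3] at h2
  norm_num at h2

private theorem cover_cont (p : Fin 5 × Fin 5) : Continuous (fun x : Fin 4 → ℝ => |om (cc p) x|) := by
  unfold om
  fun_prop

private theorem cover_one (J : Finset (Fin 5 × Fin 5)) (hJ : J.card = 4) :
    ∃ δ > 0, ∀ x ∈ Sph, ∃ p ∈ J, δ ≤ |om (cc p) x| := by
  have hne : Sph.Nonempty := by
    refine ⟨![1, 0, 0, 0], ?_⟩
    show ∑ i, (![1, 0, 0, 0] : Fin 4 → ℝ) i ^ 2 = 1
    rw [Fin.sum_univ_four]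
    simp
  have hcont : Continuous (fun x : Fin 4 → ℝ => ∑ p ∈ J, |om (cc p) x|) :=
    continuous_finsetSum J fun p _ => cover_cont p
  obtain ⟨x0, hx0, hmin⟩ := isCompact_Sph.exists_isMinOn hne hcont.continuousOn
  have hpos : 0 < ∑ p ∈ J, |om (cc p) x0| := by
    obtain ⟨p, hp, hne⟩ := cover_nonzero J hJ x0 hx0
    have h1 : |om (cc p) x0| ≤ ∑ p ∈ J, |om (cc p) x0| :=
      Finset.single_le_sum (f := fun p => |om (cc p) x0|) (fun p _ => abs_nonneg _) hp
    exact lt_of_lt_of_le (abs_pos.2 hne) h1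
  refine ⟨(∑ p ∈ J, |om (cc p) x0|) / 4, by positivity, fun x hx => ?_⟩
  by_contra hcon
  push Not at hcon
  have hJne : J.Nonempty := by
    rw [← Finset.card_pos, hJ]
    norm_num
  have h1 : ∑ p ∈ J, |om (cc p) x| < ∑ _p ∈ J, (∑ p ∈ J, |om (cc p) x0|) / 4 :=
    Finset.sum_lt_sum_of_nonempty hJne hcon
  rw [Finset.sum_const, hJ, nsmul_eq_mul] at h1
  have h2 : ∑ p ∈ J, |om (cc p) x0| ≤ ∑ p ∈ J, |om (cc p) x| := hmin hx
  push_cast at h1
  linarith

theorem charts_cover : ∃ δ > 0, ∀ x ∈ Sph,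
    ∃ B : Finset (Fin 5 × Fin 5), B.card ≤ 3 ∧ ∀ p, p ∉ B → x ∈ KK (cc p) δ := by
  have hall : ∀ s : Finset (Finset (Fin 5 × Fin 5)), (∀ J ∈ s, J.card = 4) →
      ∃ δ > 0, ∀ J ∈ s, ∀ x ∈ Sph, ∃ p ∈ J, δ ≤ |om (cc p) x| := by
    intro s
    induction s using Finset.induction_on with
    | empty => exact fun _ => ⟨1, one_pos, fun J hJ => absurd hJ (Finset.notMem_empty J)⟩
    | insert J0 s _ ih =>
      intro hs
      obtain ⟨δ1, h1, h2⟩ := ih fun J hJ => hs J (Finset.mem_insert_of_mem hJ)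
      obtain ⟨δ2, h3, h4⟩ := cover_one J0 (hs J0 (Finset.mem_insert_self J0 s))
      refine ⟨min δ1 δ2, lt_min h1 h3, fun J hJ x hx => ?_⟩
      rw [Finset.mem_insert] at hJ
      rcases hJ with rfl | hJ
      · obtain ⟨p, hp, h5⟩ := h4 x hx
        exact ⟨p, hp, (min_le_right _ _).trans h5⟩
      · obtain ⟨p, hp, h5⟩ := h2 J hJ x hx
        exact ⟨p, hp, (min_le_left _ _).trans h5⟩
  obtain ⟨δ, hδ, hmain⟩ := hall (Finset.powersetCard 4 Finset.univ) fun J hJ =>
    (Finset.mem_powersetCard.1 hJ).2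
  refine ⟨δ, hδ, fun x hx => ?_⟩
  refine ⟨Finset.univ.filter (fun p => |om (cc p) x| < δ), ?_, fun p hp => ?_⟩
  · by_contra hcon
    push Not at hcon
    obtain ⟨J, hJ1, hJ2⟩ := Finset.exists_subset_card_eq (Nat.succ_le_of_lt hcon)
    obtain ⟨p, hp, h1⟩ := hmain J (Finset.mem_powersetCard.2 ⟨Finset.subset_univ J, hJ2⟩) x hx
    have h2 := (Finset.mem_filter.1 (hJ1 hp)).2
    linarith
  · refine ⟨hx, ?_⟩
    by_contra hcon
    exact hp (Finset.mem_filter.2 ⟨Finset.mem_univ p, not_le.1 hcon⟩)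

end TVD
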