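import Pool.Agent.H47.TVD.Defs

set_option autoImplicit false

/-!
# Major: near-unanimity and the two-level majority term

`near_unanimity`: one of the two disjoint sets `A`, `B` of indices does not contain the bad index `i0`; its
vectors lie in the convex set `S`, so `z ∈ convexHull (y '' A) ⊆ S` (`convexHull_min`).

`majority`: the term `rad (fun i => rad (fun j => t (i, j)))`. For `x` fixed let `B` be the set of bad pairs,
`B.card ≤ 3`. There is `i0` such that for `i ≠ i0` at most one `j` has `(i, j) ∈ B` (otherwise two different `i`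
with two bad `j` each, four bad pairs). For `i ≠ i0` near-unanimity (inner) puts every value of the inner term in
`S`, then near-unanimity (outer).
-/

namespace TVD

theorem near_unanimity {V : Type*} [AddCommGroup V] [Module ℝ V] (S : Set V) (hS : Convex ℝ S)
    (y : Fin 5 → V) (i0 : Fin 5) (hy : ∀ i, i ≠ i0 → y i ∈ S) (z : V) (hz : IsRadon y z) : z ∈ S := by
  obtain ⟨A, B, hAB, hA, hB⟩ := hz
  have key : ∀ C : Set (Fin 5), i0 ∉ C → z ∈ convexHull ℝ (y '' C) → z ∈ S := by
    intro C hC hz
    refine convexHull_min ?_ hS hz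
    rintro _ ⟨i, hi, rfl⟩
    apply hy i
    rintro rfl
    exact hC hi
  by_cases h : i0 ∈ A
  · exact key B (Set.disjoint_left.mp hAB h) hB
  · exact key A h hA

theorem majority (t : Fin 5 × Fin 5 → Tm) : ∃ T : Tm, ∀ (V : Type) [AddCommGroup V] [Module ℝ V]
    (q : (Fin 4 → ℝ) → V) (S : Set V), Convex ℝ S → ∀ B : Finset (Fin 5 × Fin 5), B.card ≤ 3 →
    (∀ p, p ∉ B → (t p).sem q ⊆ S) → T.sem q ⊆ S := by
  classical
  refine ⟨Tm.rad (fun i => Tm.rad (fun j => t (i, j))), ?_⟩
  intro V _ _ q S hS B hB ht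
  -- the exceptional row
  have hrow : ∃ i0 : Fin 5, ∀ i, i ≠ i0 → (B.filter (fun p => p.1 = i)).card ≤ 1 := by
    by_contra hcon
    push Not at hcon
    obtain ⟨i1, _, h1⟩ := hcon 0
    obtain ⟨i2, h21, h2⟩ := hcon i1
    have hd : Disjoint (B.filter (fun p => p.1 = i1)) (B.filter (fun p => p.1 = i2)) := by
      rw [Finset.disjoint_left]
      intro p hp hp'
      rw [Finset.mem_filter] at hp hp'
      exact h21 (hp'.2.symm.trans hp.2)
    have h3 : ((B.filter (fun p => p.1 = i1)) ∪ (B.filter (fun p => p.1 = i2))).card ≤ B.card :=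
      Finset.card_le_card (Finset.union_subset (Finset.filter_subset _ _)
        (Finset.filter_subset _ _))
    rw [Finset.card_union_of_disjoint hd] at h3
    omega
  obtain ⟨i0, hi0⟩ := hrow
  have hinner : ∀ i, i ≠ i0 → ∀ z ∈ (Tm.rad (fun j => t (i, j))).sem q, z ∈ S := by
    intro i hi z hz
    obtain ⟨w, hw, hz⟩ := hz
    have hc := hi0 i hi
    have hj0 : ∃ j0 : Fin 5, ∀ j, j ≠ j0 → (i, j) ∉ B := by
      by_cases hex : ∃ j0, (i, j0) ∈ B
      · obtain ⟨j0, hj0⟩ := hex
        refine ⟨j0, fun j hj hjB => hj ?_⟩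
        have h1 : (i, j) ∈ B.filter (fun p => p.1 = i) := Finset.mem_filter.mpr ⟨hjB, rfl⟩
        have h2 : (i, j0) ∈ B.filter (fun p => p.1 = i) := Finset.mem_filter.mpr ⟨hj0, rfl⟩
        have h3 := Finset.card_le_one.mp hc _ h1 _ h2
        exact congrArg Prod.snd h3
      · push Not at hex
        exact ⟨0, fun j _ => hex j⟩
    obtain ⟨j0, hj0⟩ := hj0
    exact near_unanimity S hS w j0 (fun j hj => ht (i, j) (hj0 j hj) (hw j)) z hz
  intro z hz
  obtain ⟨w, hw, hz⟩ := hz
  exact near_unanimity S hS w i0 (fun i hi => hinner i hi (w i) (hw i)) z hz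

end TVD
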