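import Pool.Agent.H47.TVD.ChartApprox
import Pool.Agent.H47.TVD.Cover
import Pool.Agent.H47.TVD.Major

set_option autoImplicit false

/-!
# BMain: (B)

PROOF. `charts_cover`, `chart_approx` for the 25 charts, `majority` with the ball `{z | ‖z - s x‖ < ε}`.
-/

namespace TVD

theorem b_main : StatementB := by
  intro s hs he ho ε hε
  obtain ⟨δ, hδ, hcov⟩ := charts_cover
  choose t ht using fun p : Fin 5 × Fin 5 => chart_approx (cc p) δ hδ s hs he ho ε hε
  obtain ⟨T, hT⟩ := majority t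
  refine ⟨T, fun x hx z hz => ?_⟩
  obtain ⟨B, hB, hBx⟩ := hcov x hx
  have hconv : Convex ℝ {z : Fin 4 → ℝ | ‖z - s x‖ < ε} := by
    have : {z : Fin 4 → ℝ | ‖z - s x‖ < ε} = Metric.ball (s x) ε := by
      ext z
      simp [dist_eq_norm]
    rw [this]
    exact convex_ball _ _
  exact hT (Fin 4 → ℝ) (proj x) {z | ‖z - s x‖ < ε} hconv B hB
    (fun p hp z hz => ht p x (hBx p hp) z hz) hz

end TVD
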