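import Pool.Agent.H47.TVD.ChartSW

set_option autoImplicit false

/-!
# ChartApprox: an even tangent field is approximated by a term on `KK c δ`

PROOF. `tangent_decomp`: `s x = ∑ k, g_k x • proj x (w k)` with `g_k x = s x (k+1) - om c (s x) * (x (k+1) / om c x)`,
continuous on `KK c δ` and even (`s (-x) = s x`, the quotient is even). Let `M` bound `‖proj x (w k)‖` on `Sph`
(compactness or explicitly). `chart_sw` with `ε / (3 (M + 1))` gives representable `g'_k`; the term is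
`lin 1 1 (lin 1 1 t0 t1) t2` with `t_k` the term of `g'_k` for the axis `k`.
-/

namespace TVD

private theorem ca_om_cont (c : ℝ) : Continuous (om c) := by
  unfold om
  fun_prop

private theorem ca_om_neg (c : ℝ) (x : Fin 4 → ℝ) : om c (-x) = -om c x := by
  unfold om
  simp only [Pi.neg_apply]
  ring

private theorem ca_ne {c δ : ℝ} (hδ : 0 < δ) {x : Fin 4 → ℝ} (hx : x ∈ KK c δ) : om c x ≠ 0 := by
  intro h
  have h1 : δ ≤ |om c x| := hx.2
  rw [h, abs_zero] at h1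
  linarith

private theorem ca_cont (c δ : ℝ) (hδ : 0 < δ) (s : (Fin 4 → ℝ) → (Fin 4 → ℝ))
    (hs : ContinuousOn s Sph) (k : Fin 4) :
    ContinuousOn (fun x => s x k - om c (s x) * (x k / om c x)) (KK c δ) := by
  have hs' : ContinuousOn s (KK c δ) := hs.mono fun x hx => hx.1
  have h1 : ContinuousOn (fun x => s x k) (KK c δ) :=
    (continuous_apply k).comp_continuousOn hs'
  have h2 : ContinuousOn (fun x => om c (s x)) (KK c δ) := (ca_om_cont c).comp_continuousOn hs'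
  have h3 : ContinuousOn (fun x : Fin 4 → ℝ => x k / om c x) (KK c δ) :=
    (continuous_apply k).continuousOn.div (ca_om_cont c).continuousOn fun x hx => ca_ne hδ hx
  exact h1.sub (h2.mul h3)

private theorem ca_even (c δ : ℝ) (s : (Fin 4 → ℝ) → (Fin 4 → ℝ))
    (he : ∀ x ∈ Sph, s (-x) = s x) (k : Fin 4) (x : Fin 4 → ℝ) (hx : x ∈ KK c δ) :
    s (-x) k - om c (s (-x)) * ((-x) k / om c (-x)) = s x k - om c (s x) * (x k / om c x) := by
  rw [he x hx.1, ca_om_neg, Pi.neg_apply, neg_div_neg_eq]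

private theorem ca_bound (v : Fin 4 → ℝ) : ∃ M : ℝ, 0 ≤ M ∧ ∀ x ∈ Sph, ‖proj x v‖ ≤ M := by
  have hc : Continuous (fun x : Fin 4 → ℝ => proj x v) := by
    unfold proj
    fun_prop
  obtain ⟨M, hM⟩ := isCompact_Sph.exists_bound_of_continuousOn hc.continuousOn
  exact ⟨max M 0, le_max_right _ _, fun x hx => (hM x hx).trans (le_max_left _ _)⟩

theorem chart_approx (c δ : ℝ) (hδ : 0 < δ) (s : (Fin 4 → ℝ) → (Fin 4 → ℝ)) (hs : ContinuousOn s Sph)
    (he : ∀ x ∈ Sph, s (-x) = s x) (ho : ∀ x ∈ Sph, ∑ i, x i * s x i = 0) (ε : ℝ) (hε : 0 < ε) :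
    ∃ t : Tm, ∀ x ∈ KK c δ, ∀ z ∈ t.sem (proj x), ‖z - s x‖ < ε := by
  obtain ⟨M0, hM00, hM0⟩ := ca_bound (wv c 0)
  obtain ⟨M1, hM10, hM1⟩ := ca_bound (wv c 1)
  obtain ⟨M2, hM20, hM2⟩ := ca_bound (wv c 2)
  set M := M0 + M1 + M2 with hM
  have hM' : 0 ≤ M := by positivity
  have hε' : 0 < ε / (3 * (M + 1)) := by positivity
  obtain ⟨g0, hr0, hg0⟩ := chart_sw c δ hδ _ (ca_cont c δ hδ s hs 1)
    (ca_even c δ s he 1) (ε / (3 * (M + 1))) hε'
  obtain ⟨g1, hr1, hg1⟩ := chart_sw c δ hδ _ (ca_cont c δ hδ s hs 2)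
    (ca_even c δ s he 2) (ε / (3 * (M + 1))) hε'
  obtain ⟨g2, hr2, hg2⟩ := chart_sw c δ hδ _ (ca_cont c δ hδ s hs 3)
    (ca_even c δ s he 3) (ε / (3 * (M + 1))) hε'
  obtain ⟨t0, ht0⟩ := hr0 0
  obtain ⟨t1, ht1⟩ := hr1 1
  obtain ⟨t2, ht2⟩ := hr2 2
  refine ⟨Tm.lin 1 1 (Tm.lin 1 1 t0 t1) t2, fun x hx z hz => ?_⟩
  obtain ⟨y, ⟨z0, hz0, z1, hz1, rfl⟩, z2, hz2, rfl⟩ := hz
  rw [ht0 x hx z0 hz0, ht1 x hx z1 hz1, ht2 x hx z2 hz2]
  have h1 := hg0 x hx
  have h2 := hg1 x hx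
  have h3 := hg2 x hx
  have b0 := hM0 x hx.1
  have b1 := hM1 x hx.1
  have b2 := hM2 x hx.1
  have hd := tangent_decomp c hx.1 (ca_ne hδ hx) (ho x hx.1)
  set A := proj x (wv c 0) with hA
  set A' := proj x (wv c 1) with hA'
  set A'' := proj x (wv c 2) with hA''
  set u0 := s x 1 - om c (s x) * (x 1 / om c x) with hu0
  set u1 := s x 2 - om c (s x) * (x 2 / om c x) with hu1
  set u2 := s x 3 - om c (s x) * (x 3 / om c x) with hu2
  have h4 : (1 : ℝ) • ((1 : ℝ) • g0 x • A + (1 : ℝ) • g1 x • A') + (1 : ℝ) • g2 x • A'' - s x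
      = (g0 x - u0) • A + (g1 x - u1) • A' + (g2 x - u2) • A'' := by
    rw [hd]
    simp only [one_smul, sub_smul]
    abel
  rw [h4]
  have hn : ∀ (r : ℝ) (v : Fin 4 → ℝ) (m : ℝ), |r| < ε / (3 * (M + 1)) → ‖v‖ ≤ m → m ≤ M →
      ‖r • v‖ ≤ ε / (3 * (M + 1)) * M := by
    intro r v m hr hv hm
    rw [norm_smul, Real.norm_eq_abs]
    exact mul_le_mul hr.le (hv.trans hm) (norm_nonneg v) hε'.le
  have k0 := hn _ A M0 h1 b0 (by linarith)
  have k1 := hn _ A' M1 h2 b1 (by linarith)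
  have k2 := hn _ A'' M2 h3 b2 (by linarith)
  have k3 := norm_add_le ((g0 x - u0) • A + (g1 x - u1) • A') ((g2 x - u2) • A'')
  have k4 := norm_add_le ((g0 x - u0) • A) ((g1 x - u1) • A')
  have k5 : 3 * (ε / (3 * (M + 1)) * M) < ε := by
    have h5 : 3 * (ε / (3 * (M + 1)) * M) = ε * (M / (M + 1)) := by
      field_simp
    rw [h5]
    have h6 : M / (M + 1) < 1 := by
      rw [div_lt_one (by linarith)]
      linarith
    calc ε * (M / (M + 1)) < ε * 1 := mul_lt_mul_of_pos_left h6 hε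
      _ = ε := mul_one _
  linarith

end TVD
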