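import Pool.Agent.H47.TVD.Rep

set_option autoImplicit false

/-!
# ChartSW: every even continuous function on `KK c δ` is a uniform limit of representable functions

PROOF. `Y = (fun x k => x k.succ / om c x) '' KK c δ ⊆ Fin 3 → ℝ` compact (continuous image). If `KK c δ` is
empty take `g = 0`. Let `L : Set C(Y, ℝ)` be the set of all `g` such that
`Rep c δ (fun x => if hx : x ∈ KK c δ then g ⟨y x, _⟩ else 0)` (or: there is a function `g' : (Fin 3 → ℝ) → ℝ` with
`Rep c δ (g' ∘ y)` and `g' = g` on `Y`; the values outside `KK c δ` do not matter in `Rep`, `Bdd`). `L` is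
nonempty, closed under inf and sup (`rep_inf`, `rep_sup`; elements of `C(Y, ℝ)` are bounded as `Y` is compact), and
separates points strongly: for `p ≠ q` in `Y` choose a coordinate `k` with `p k ≠ q k` and use an affine function
`α + β y_k` with the prescribed values (`rep_const`, `rep_coord`, `rep_lin`); for `p = q` a constant.
`ContinuousMap.sublattice_closure_eq_top` gives density.
For `h` even and continuous on `KK c δ`: `h = g ∘ y` with `g p = h (normalize (e0 + ∑ p k • w k))`,
because for `x ∈ KK c δ`: `x = om c x • (e0 + ∑ y_k • w k)` (`chart_decomp`), so the normalisation is `± x`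
(with the sign of `om c x`) and `h` is even. `g` is continuous on `Y` (the vector `e0 + ∑ p k • w k` is never `0`,
its normalisation lies in `KK c δ` for `p ∈ Y`).
-/

namespace TVD

private theorem continuous_om (c : ℝ) : Continuous (om c) := by
  unfold om
  fun_prop

/-- the function is constant on the fibres of the chart map -/
private theorem fiber_eq {c δ : ℝ} (hδ : 0 < δ) (h : (Fin 4 → ℝ) → ℝ) (he : ∀ x ∈ KK c δ, h (-x) = h x)
    {a b : Fin 4 → ℝ} (ha : a ∈ KK c δ) (hb : b ∈ KK c δ)
    (hab : (fun k : Fin 3 => a k.succ / om c a) = fun k : Fin 3 => b k.succ / om c b) : h a = h b := by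
  have hne : ∀ x ∈ KK c δ, om c x ≠ 0 := by
    intro x hx h0
    have h1 := hx.2
    rw [h0, abs_zero] at h1
    linarith
  have ha0 := hne a ha
  have hb0 := hne b hb
  obtain ⟨t, ht⟩ : ∃ t : ℝ, t = om c b / om c a := ⟨_, rfl⟩
  have htb : om c b = t * om c a := by
    rw [ht, div_mul_cancel₀ _ ha0]
  have hk : ∀ k : Fin 3, b k.succ = t * a k.succ := by
    intro k
    have h1 : a k.succ / om c a = b k.succ / om c b := congrFun hab k
    rw [div_eq_div_iff ha0 hb0] at h1
    rw [ht]
    field_simp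
    linarith
  have h1 := hk 0
  have h2 := hk 1
  have h3 := hk 2
  have e1 : (0 : Fin 3).succ = (1 : Fin 4) := rfl
  have e2 : (1 : Fin 3).succ = (2 : Fin 4) := rfl
  have e3 : (2 : Fin 3).succ = (3 : Fin 4) := rfl
  rw [e1] at h1
  rw [e2] at h2
  rw [e3] at h3
  have h0 : b 0 = t * a 0 := by
    have h5 : b 0 + c * b 1 + c ^ 2 * b 2 + c ^ 3 * b 3 =
        t * (a 0 + c * a 1 + c ^ 2 * a 2 + c ^ 3 * a 3) := htb
    rw [h1, h2, h3] at h5
    linarith
  have hsa : a 0 ^ 2 + a 1 ^ 2 + a 2 ^ 2 + a 3 ^ 2 = 1 := by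
    have h5 : ∑ i, a i ^ 2 = 1 := ha.1
    rw [Fin.sum_univ_four] at h5
    exact h5
  have hsb : b 0 ^ 2 + b 1 ^ 2 + b 2 ^ 2 + b 3 ^ 2 = 1 := by
    have h5 : ∑ i, b i ^ 2 = 1 := hb.1
    rw [Fin.sum_univ_four] at h5
    exact h5
  have ht2 : t ^ 2 = 1 := by
    rw [h0, h1, h2, h3] at hsb
    have h5 : t ^ 2 * (a 0 ^ 2 + a 1 ^ 2 + a 2 ^ 2 + a 3 ^ 2) = 1 := by
      rw [← hsb]
      ring
    rw [hsa, mul_one] at h5
    exact h5
  have ht3 : t = 1 ∨ t = -1 := by
    have h5 : (t - 1) * (t + 1) = 0 := by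
      linear_combination ht2
    rcases mul_eq_zero.1 h5 with h6 | h6
    · exact Or.inl (by linarith)
    · exact Or.inr (by linarith)
  rcases ht3 with h5 | h5
  · have : b = a := by
      funext i
      fin_cases i
      · simpa [h5] using h0
      · simpa [h5] using h1
      · simpa [h5] using h2
      · simpa [h5] using h3
    rw [this]
  · have : b = -a := by
      funext i
      fin_cases i
      · simpa [h5] using h0
      · simpa [h5] using h1
      · simpa [h5] using h2
      · simpa [h5] using h3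
    rw [this, he a ha]

theorem chart_sw (c δ : ℝ) (hδ : 0 < δ) (h : (Fin 4 → ℝ) → ℝ) (hc : ContinuousOn h (KK c δ))
    (he : ∀ x ∈ KK c δ, h (-x) = h x) (ε : ℝ) (hε : 0 < ε) :
    ∃ g : (Fin 4 → ℝ) → ℝ, Rep c δ g ∧ ∀ x ∈ KK c δ, |g x - h x| < ε := by
  have hom : ∀ x : KK c δ, om c x.1 ≠ 0 := by
    intro x h0
    have h1 := x.2.2
    rw [h0, abs_zero] at h1
    linarith
  have hX : CompactSpace (KK c δ) := isCompact_iff_compactSpace.1 (isCompact_KK c δ)
  let ym : KK c δ → (Fin 3 → ℝ) := fun x k => x.1 k.succ / om c x.1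
  have hym : Continuous ym := by
    refine continuous_pi fun k => ?_
    refine Continuous.div ((continuous_apply _).comp continuous_subtype_val) ?_ hom
    exact continuous_om c |>.comp continuous_subtype_val
  have hY : CompactSpace (Set.range ym) := isCompact_iff_compactSpace.1 (isCompact_range hym)
  let φ : C(KK c δ, Set.range ym) := ⟨Set.rangeFactorization ym, hym.subtype_mk _⟩
  have hφs : Function.Surjective φ := Set.rangeFactorization_surjective
  have hq : Topology.IsQuotientMap φ := φ.continuous.isClosedMap.isQuotientMap φ.continuous hφs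
  have hφ : ∀ x : KK c δ, (φ x).1 = ym x := fun _ => rfl
  let hX' : C(KK c δ, ℝ) := ⟨fun x => h x.1, continuousOn_iff_continuous_domRestrict.1 hc⟩
  have hfac : Function.FactorsThrough hX' φ := by
    intro a b hab
    have hab' : ym a = ym b := by
      rw [← hφ, ← hφ, hab]
    exact fiber_eq hδ h he a.2 b.2 hab'
  let hb : C(Set.range ym, ℝ) := hq.lift hX' hfac
  have hbφ : ∀ x : KK c δ, hb (φ x) = h x.1 := by
    intro x
    have h1 := hq.lift_comp hX' hfac
    have h2 := congrArg (fun u : C(KK c δ, ℝ) => u x) h1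
    exact h2
  let L : Set C(Set.range ym, ℝ) := {g | ∃ g' : (Fin 4 → ℝ) → ℝ, Rep c δ g' ∧ ∀ x : KK c δ, g' x.1 = g (φ x)}
  have hbdd : ∀ (g : C(Set.range ym, ℝ)) (g' : (Fin 4 → ℝ) → ℝ), (∀ x : KK c δ, g' x.1 = g (φ x)) →
      Bdd c δ g' := by
    intro g g' hg
    refine ⟨‖g‖, fun x hx => ?_⟩
    rw [hg ⟨x, hx⟩, ← Real.norm_eq_abs]
    exact g.norm_coe_le_norm _
  have hL : closure L = ⊤ := by
    refine ContinuousMap.sublattice_closure_eq_top L ?_ ?_ ?_ ?_
    · exact ⟨0, fun _ => 0, rep_const c δ 0, fun x => rfl⟩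
    · rintro f ⟨f', hf, hf'⟩ g ⟨g', hg, hg'⟩
      refine ⟨fun x => min (f' x) (g' x), rep_inf hδ hf hg (hbdd f f' hf') (hbdd g g' hg'), fun x => ?_⟩
      show min (f' x.1) (g' x.1) = (f ⊓ g) (φ x)
      rw [hf', hg', ContinuousMap.inf_apply]
    · rintro f ⟨f', hf, hf'⟩ g ⟨g', hg, hg'⟩
      refine ⟨fun x => max (f' x) (g' x), rep_sup hδ hf hg (hbdd f f' hf') (hbdd g g' hg'), fun x => ?_⟩
      show max (f' x.1) (g' x.1) = (f ⊔ g) (φ x)
      rw [hf', hg', ContinuousMap.sup_apply]
    · intro v p q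
      by_cases hpq : p = q
      · subst hpq
        refine ⟨ContinuousMap.const _ (v p), ⟨fun _ => v p, rep_const c δ (v p), fun x => rfl⟩, rfl, rfl⟩
      · have h1 : ∃ k, p.1 k ≠ q.1 k := by
          by_contra hcon
          push Not at hcon
          exact hpq (Subtype.ext (funext hcon))
        obtain ⟨k, hk⟩ := h1
        have hk' : q.1 k - p.1 k ≠ 0 := sub_ne_zero.2 hk.symm
        let β : ℝ := (v q - v p) / (q.1 k - p.1 k)
        let α : ℝ := v p - β * p.1 k
        refine ⟨⟨fun r => β * r.1 k + 1 * α, ?_⟩, ⟨fun x => β * (x k.succ / om c x) + 1 * α,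
          rep_lin β 1 (rep_coord c δ hδ k) (rep_const c δ α), fun x => rfl⟩, ?_, ?_⟩
        · have h2 : Continuous (fun r : Set.range ym => r.1 k) :=
            (continuous_apply k).comp continuous_subtype_val
          exact (continuous_const.mul h2).add continuous_const
        · show β * p.1 k + 1 * α = v p
          simp only [α]
          ring
        · show β * q.1 k + 1 * α = v q
          have h3 : β * (q.1 k - p.1 k) = v q - v p := div_mul_cancel₀ _ hk'
          simp only [α]
          linarith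
  have hmem : hb ∈ closure L := by
    rw [hL]
    exact Set.mem_univ _
  obtain ⟨g, ⟨g', hg, hg'⟩, hd⟩ := Metric.mem_closure_iff.1 hmem ε hε
  refine ⟨g', hg, fun x hx => ?_⟩
  have h1 := hg' ⟨x, hx⟩
  have h2 := hbφ ⟨x, hx⟩
  have h3 : g' x = g (φ ⟨x, hx⟩) := h1
  have h4 : hb (φ ⟨x, hx⟩) = h x := h2
  rw [h3, ← h4, ← Real.dist_eq, dist_comm]
  exact lt_of_le_of_lt (ContinuousMap.dist_apply_le_dist _) hd

end TVD
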