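import Pool.Agent.H47.TVD.Defs

set_option autoImplicit false

/-!
# Compile: terms become families of five vectors in `ℝ^(4+g)`

A context has `g` families of five vectors in `ℝ^(4+g)`; it is valid for a surjective linear
`q : ℝ^(4+g) → ℝ^3` if every family satisfies `Split 2` after `q`.

`split_two_iff`: `Split 2 (fun i => y i - z)` iff `IsRadon y z` (translate convex hulls; `A 0`, `A 1` disjoint).

`ext_ctx` (one new gadget): new dimension, `j = Fin.snoc · 0`, `v = Fin.snoc 0 1` (`4 + (g + 1)` is definitionally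
`4 + g + 1`), new family `fun i => j (Y i) - v`. Positivity: `La' x = La (Fin.init x) - M * x (Fin.last _)` with
`M` larger than all `-La (Y i)`; then `La' (j (Y i) - v) = La (Y i) + M > 0`.
If `q` is valid for the new context then `q v` is a Radon point of the `q (j (Y i))`, so it lies in the range of
`q ∘ j` (a convex set); as `x = j (Fin.init x) + x (Fin.last _) • v`, `q ∘ j` is surjective.

`comp_all`: induction on the term (`Tm.rec` gives for `rad y` the hypothesis for all `y i`).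
`const w`: the same context, `v = io w`. `lin a b s t`: compile `s` in `c` (gives `c1, j1, v1`), then `t` in `c1` with
`j1 ∘ io` (gives `c2, j2, v2`), vector `a • j2 v1 + b • v2`. `rad y`: `comp_fam` with `k = 5`, then `ext_ctx`.
`comp_fam`: induction on `k` (`Fin.snoc` / `Fin.castSucc`), old vectors are transported with the new `j`.
-/

namespace TVD

private theorem hull_sub_iff {ι V : Type*} [AddCommGroup V] [Module ℝ V] (y : ι → V) (z : V)
    (A : Set ι) :
    (0 : V) ∈ convexHull ℝ ((fun i => y i - z) '' A) ↔ z ∈ convexHull ℝ (y '' A) := by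
  have himg : (fun i => y i - z) '' A
      = (AffineEquiv.constVAdd ℝ V (-z)).toAffineMap '' (y '' A) := by
    rw [Set.image_image]
    apply Set.image_congr
    intro i _
    simp [sub_eq_add_neg, add_comm]
  rw [himg, ← AffineMap.image_convexHull]
  constructor
  · rintro ⟨u, hu, hu0⟩
    have : u = z := by
      have h1 : -z + u = 0 := by simpa using hu0
      have h2 : u = z := by
        rw [neg_add_eq_zero] at h1
        exact h1.symm
      exact h2
    rw [← this]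
    exact hu
  · intro hz
    exact ⟨z, hz, by simp⟩

theorem split_two_iff {V : Type*} [AddCommGroup V] [Module ℝ V] (y : Fin 5 → V) (z : V) :
    Split 2 (fun i => y i - z) ↔ IsRadon y z := by
  constructor
  · rintro ⟨A, hA, h0⟩
    refine ⟨A 0, A 1, hA 0 1 (by decide), ?_, ?_⟩
    · exact (hull_sub_iff y z (A 0)).1 (h0 0)
    · exact (hull_sub_iff y z (A 1)).1 (h0 1)
  · rintro ⟨A, B, hAB, h1, h2⟩
    refine ⟨fun j => if j = 0 then A else B, ?_, ?_⟩
    · intro i j hij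
      fin_cases i <;> fin_cases j <;> simp_all [disjoint_comm]
    · intro j
      fin_cases j
      · simpa using (hull_sub_iff y z A).2 h1
      · simpa using (hull_sub_iff y z B).2 h2

structure Ctx where
  g : ℕ
  C : Fin g → Fin 5 → (Fin (4 + g) → ℝ)

def Ctx.Valid (c : Ctx) (q : (Fin (4 + c.g) → ℝ) →ₗ[ℝ] (Fin 3 → ℝ)) : Prop :=
  Function.Surjective q ∧ ∀ i, Split 2 (fun j => q (c.C i j))

def Ctx.Pos (c : Ctx) : Prop :=
  ∃ La : (Fin (4 + c.g) → ℝ) →ₗ[ℝ] ℝ, ∀ i j, 0 < La (c.C i j)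

/-- `x ↦ Fin.snoc x 0`. -/
private def snocL (n : ℕ) : (Fin n → ℝ) →ₗ[ℝ] (Fin (n + 1) → ℝ) where
  toFun x := Fin.snoc (α := fun _ => ℝ) x 0
  map_add' x y := by
    funext i
    refine Fin.lastCases ?_ ?_ i
    · simp
    · intro i
      simp
  map_smul' a x := by
    funext i
    refine Fin.lastCases ?_ ?_ i
    · simp
    · intro i
      simp

private def snocV (n : ℕ) : Fin (n + 1) → ℝ := Fin.snoc (α := fun _ => ℝ) (0 : Fin n → ℝ) 1

private def initL (n : ℕ) : (Fin (n + 1) → ℝ) →ₗ[ℝ] (Fin n → ℝ) where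
  toFun x := fun i => x (Fin.castSucc i)
  map_add' _ _ := rfl
  map_smul' _ _ := rfl

private theorem initL_snocL (n : ℕ) (x : Fin n → ℝ) : initL n (snocL n x) = x := by
  funext i
  show (Fin.snoc (α := fun _ => ℝ) x 0 : Fin (n + 1) → ℝ) (Fin.castSucc i) = x i
  simp

private theorem initL_snocV (n : ℕ) : initL n (snocV n) = 0 := by
  funext i
  show (Fin.snoc (α := fun _ => ℝ) (0 : Fin n → ℝ) 1 : Fin (n + 1) → ℝ) (Fin.castSucc i) = 0
  simp

private theorem snocL_last (n : ℕ) (x : Fin n → ℝ) : snocL n x (Fin.last n) = 0 := by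
  show (Fin.snoc (α := fun _ => ℝ) x 0 : Fin (n + 1) → ℝ) (Fin.last n) = 0
  simp

private theorem snocV_last (n : ℕ) : snocV n (Fin.last n) = 1 := by
  show (Fin.snoc (α := fun _ => ℝ) (0 : Fin n → ℝ) 1 : Fin (n + 1) → ℝ) (Fin.last n) = 1
  simp

private theorem decomp (n : ℕ) (x : Fin (n + 1) → ℝ) :
    x = snocL n (initL n x) + x (Fin.last n) • snocV n := by
  funext i
  refine Fin.lastCases ?_ ?_ i
  · rw [Pi.add_apply, Pi.smul_apply, snocL_last, snocV_last]
    simp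
  · intro i
    show x (Fin.castSucc i) = (Fin.snoc (α := fun _ => ℝ) (initL n x) 0 : Fin (n + 1) → ℝ) (Fin.castSucc i)
      + x (Fin.last n) • (Fin.snoc (α := fun _ => ℝ) (0 : Fin n → ℝ) 1 : Fin (n + 1) → ℝ) (Fin.castSucc i)
    simp [initL]

theorem ext_ctx (c : Ctx) (hc : c.Pos) (Y : Fin 5 → (Fin (4 + c.g) → ℝ)) :
    ∃ (c' : Ctx) (j : (Fin (4 + c.g) → ℝ) →ₗ[ℝ] (Fin (4 + c'.g) → ℝ)) (v : Fin (4 + c'.g) → ℝ),
      c'.Pos ∧ ∀ q, c'.Valid q → c.Valid (q ∘ₗ j) ∧ IsRadon (fun i => q (j (Y i))) (q v) := by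
  obtain ⟨La, hLa⟩ := hc
  set M : ℝ := 1 + ∑ i, |La (Y i)| with hM
  have hMi : ∀ i, 0 < La (Y i) + M := by
    intro i
    have h1 : |La (Y i)| ≤ ∑ i, |La (Y i)| :=
      Finset.single_le_sum (f := fun i => |La (Y i)|) (fun i _ => abs_nonneg _) (Finset.mem_univ i)
    have h2 := neg_abs_le (La (Y i))
    rw [hM]
    linarith
  let c' : Ctx := ⟨c.g + 1, fun i l => Fin.lastCases (motive := fun _ => Fin (4 + (c.g + 1)) → ℝ)
    (snocL (4 + c.g) (Y l) - snocV (4 + c.g)) (fun k => snocL (4 + c.g) (c.C k l)) i⟩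
  have hlast : ∀ l, c'.C (Fin.last c.g) l = snocL (4 + c.g) (Y l) - snocV (4 + c.g) := by
    intro l
    simp only [c', Fin.lastCases_last]
  have hcast : ∀ (k : Fin c.g) l, c'.C (Fin.castSucc k) l = snocL (4 + c.g) (c.C k l) := by
    intro k l
    simp only [c', Fin.lastCases_castSucc]
  refine ⟨c', snocL (4 + c.g), snocV (4 + c.g), ?_, ?_⟩
  · let La' : (Fin (4 + c.g + 1) → ℝ) →ₗ[ℝ] ℝ :=
      La ∘ₗ initL (4 + c.g) - M • LinearMap.proj (Fin.last (4 + c.g))
    have hLa' : ∀ x : Fin (4 + c.g + 1) → ℝ,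
        La' x = La (initL (4 + c.g) x) - M * x (Fin.last (4 + c.g)) := fun x => rfl
    refine ⟨La', ?_⟩
    intro i l
    refine Fin.lastCases ?_ ?_ i
    · rw [hlast]
      have h1 : La' (snocL (4 + c.g) (Y l) - snocV (4 + c.g)) = La (Y l) + M := by
        rw [map_sub, hLa', hLa', initL_snocL, initL_snocV, snocL_last, snocV_last, map_zero]
        ring
      exact lt_of_lt_of_eq (hMi l) h1.symm
    · intro k
      rw [hcast]
      have h1 : La' (snocL (4 + c.g) (c.C k l)) = La (c.C k l) := by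
        rw [hLa', initL_snocL, snocL_last]
        ring
      exact lt_of_lt_of_eq (hLa k l) h1.symm
  · intro q hq
    obtain ⟨hsurj, hsplit⟩ := hq
    have hrad : IsRadon (fun i => q (snocL (4 + c.g) (Y i))) (q (snocV (4 + c.g))) := by
      rw [← split_two_iff]
      have h := hsplit (Fin.last c.g)
      have he : (fun l => q (c'.C (Fin.last c.g) l))
          = fun i => q (snocL (4 + c.g) (Y i)) - q (snocV (4 + c.g)) := by
        funext l
        rw [hlast]
        exact map_sub q _ _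
      rw [he] at h
      exact h
    refine ⟨⟨?_, ?_⟩, hrad⟩
    · obtain ⟨A, B, _, hA, _⟩ := hrad
      have hsub : convexHull ℝ ((fun i => q (snocL (4 + c.g) (Y i))) '' A)
          ⊆ (LinearMap.range (q ∘ₗ snocL (4 + c.g)) : Set (Fin 3 → ℝ)) := by
        apply convexHull_min
        · rintro _ ⟨i, _, rfl⟩
          exact ⟨Y i, rfl⟩
        · exact Submodule.convex _
      obtain ⟨u, hu⟩ := hsub hA
      intro w
      obtain ⟨x, hx⟩ := hsurj w
      refine ⟨initL (4 + c.g) x + (x (Fin.last (4 + c.g))) • u, ?_⟩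
      rw [map_add, map_smul, hu, ← hx]
      conv_rhs => rw [decomp (4 + c.g) x]
      rw [map_add, map_smul]
      rfl
    · intro k
      have h := hsplit (Fin.castSucc k)
      have he : (fun l => q (c'.C (Fin.castSucc k) l))
          = fun l => (q ∘ₗ snocL (4 + c.g)) (c.C k l) := by
        funext l
        rw [hcast]
        rfl
      rw [he] at h
      exact h

/-- The term can be compiled in every context. -/
def Comp (t : Tm) : Prop :=
  ∀ (c : Ctx) (io : (Fin 4 → ℝ) →ₗ[ℝ] (Fin (4 + c.g) → ℝ)), c.Pos →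
    ∃ (c' : Ctx) (j : (Fin (4 + c.g) → ℝ) →ₗ[ℝ] (Fin (4 + c'.g) → ℝ)) (v : Fin (4 + c'.g) → ℝ),
      c'.Pos ∧ ∀ q, c'.Valid q → c.Valid (q ∘ₗ j) ∧ q v ∈ t.sem (fun x => q (j (io x)))

theorem comp_fam (k : ℕ) (t : Fin k → Tm) (ht : ∀ i, Comp (t i)) (c : Ctx)
    (io : (Fin 4 → ℝ) →ₗ[ℝ] (Fin (4 + c.g) → ℝ)) (hc : c.Pos) :
    ∃ (c' : Ctx) (j : (Fin (4 + c.g) → ℝ) →ₗ[ℝ] (Fin (4 + c'.g) → ℝ))
      (v : Fin k → (Fin (4 + c'.g) → ℝ)),
      c'.Pos ∧ ∀ q, c'.Valid q → c.Valid (q ∘ₗ j) ∧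
        ∀ i, q (v i) ∈ (t i).sem (fun x => q (j (io x))) := by
  induction k with
  | zero =>
    exact ⟨c, LinearMap.id, Fin.elim0, hc, fun q hq => ⟨hq, fun i => i.elim0⟩⟩
  | succ k ih =>
    obtain ⟨c1, j1, v1, hc1, h1⟩ := ih (fun i => t (Fin.castSucc i)) (fun i => ht _)
    obtain ⟨c2, j2, v2, hc2, h2⟩ := ht (Fin.last k) c1 (j1 ∘ₗ io) hc1
    refine ⟨c2, j2 ∘ₗ j1, fun i => Fin.lastCases (motive := fun _ => Fin (4 + c2.g) → ℝ)
      v2 (fun i => j2 (v1 i)) i, hc2, ?_⟩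
    intro q hq
    obtain ⟨hv1, hs2⟩ := h2 q hq
    obtain ⟨hv0, hs1⟩ := h1 (q ∘ₗ j2) hv1
    refine ⟨hv0, ?_⟩
    intro i
    refine Fin.lastCases ?_ ?_ i
    · show q (Fin.lastCases (motive := fun _ => Fin (4 + c2.g) → ℝ) v2 (fun i => j2 (v1 i))
        (Fin.last k)) ∈ _
      rw [Fin.lastCases_last]
      exact hs2
    · intro i
      show q (Fin.lastCases (motive := fun _ => Fin (4 + c2.g) → ℝ) v2 (fun i => j2 (v1 i))
        (Fin.castSucc i)) ∈ _
      rw [Fin.lastCases_castSucc]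
      exact hs1 i

theorem comp_all (t : Tm) : Comp t := by
  induction t with
  | const w =>
    intro c io hc
    exact ⟨c, LinearMap.id, io w, hc, fun q hq => ⟨hq, rfl⟩⟩
  | lin a b s t ihs iht =>
    intro c io hc
    obtain ⟨c1, j1, v1, hc1, h1⟩ := ihs c io hc
    obtain ⟨c2, j2, v2, hc2, h2⟩ := iht c1 (j1 ∘ₗ io) hc1
    refine ⟨c2, j2 ∘ₗ j1, a • j2 v1 + b • v2, hc2, ?_⟩
    intro q hq
    obtain ⟨hv1, hs2⟩ := h2 q hq
    obtain ⟨hv0, hs1⟩ := h1 (q ∘ₗ j2) hv1
    refine ⟨hv0, ?_⟩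
    refine ⟨q (j2 v1), hs1, q v2, hs2, ?_⟩
    rw [map_add, map_smul, map_smul]
  | rad y ih =>
    intro c io hc
    obtain ⟨c1, j1, v1, hc1, h1⟩ := comp_fam 5 y ih c io hc
    obtain ⟨c2, j2, v2, hc2, h2⟩ := ext_ctx c1 hc1 v1
    refine ⟨c2, j2 ∘ₗ j1, v2, hc2, ?_⟩
    intro q hq
    obtain ⟨hv1, hr⟩ := h2 q hq
    obtain ⟨hv0, hs1⟩ := h1 (q ∘ₗ j2) hv1
    exact ⟨hv0, fun i => q (j2 (v1 i)), hs1, hr⟩

theorem compile_main (t : Fin 9 → Tm) :
    ∃ (c : Ctx) (io : (Fin 4 → ℝ) →ₗ[ℝ] (Fin (4 + c.g) → ℝ)) (v : Fin 9 → (Fin (4 + c.g) → ℝ)),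
      c.Pos ∧ ∀ q, c.Valid q → Function.Surjective (q ∘ₗ io) ∧
        ∀ l, q (v l) ∈ (t l).sem (fun x => q (io x)) := by
  obtain ⟨c, j, v, hc, h⟩ := comp_fam 9 t (fun i => comp_all (t i))
    (⟨0, fun i => i.elim0⟩ : Ctx) LinearMap.id ⟨0, fun i => i.elim0⟩
  refine ⟨c, j, v, hc, ?_⟩
  intro q hq
  obtain ⟨hv, hs⟩ := h q hq
  exact ⟨hv.1, hs⟩

end TVD
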