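import Pool.Agent.H47.TVD.AMain
import Pool.Agent.H47.TVD.BC
import Pool.Agent.H47.TVD.BMain

set_option autoImplicit false

namespace TVD

/-- Everything except (C). -/
theorem final_of_C (hC : StatementC) : ¬ TVStatement :=
  a_main (bc_main b_main hC)

end TVD
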