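import Pool.Agent.H47.TVD.RadonU

set_option autoImplicit false

/-!
# Gadgets: the ReLU gadget and the kill gadget

Both proofs: apply `radon_formula` with an explicit `mu`, and compare coordinates with respect to the
linearly independent vectors `w0, w1, w2` (`LinearIndependent` gives: `p • w0 + q • w1 + r • w2 = 0` implies
`p = q = r = 0`).

`relu_gadget`: `mu = ![3 * a - 3 * h, 3 * h, -a, -a, -a]`. A dependency `la` satisfies
`la 1 * a + 3 * h * la 4 = 0`, `la 2 = la 4`, `la 3 = la 4`, `la 0 = - la 1 - 3 * la 4`, so `la = c * mu` with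
`c = la 1 / (3 * h)`. If `0 < a`: `max mu 0 = ![0, 3h, 0, 0, 0]` and the formula gives `(3h) • z = (3h) • a • w0`.
If `a ≤ 0`: `max mu 0 = ![0, 3h, -a, -a, -a]`, `(3h - 3a) • z = (3 h a) • w0 - a • (3 h) • w0 = 0`.

`kill_gadget`: with `b1 = a1 - a0 * d1`, `b2 = a2 - a0 * d2`, `s = (1 - a0 / L) / 2`,
`β3 = (1 - (b1 + b2) / L) / 3`, `β1 = β3 + b1 / L`, `β2 = β3 + b2 / L` (all positive),
`mu = ![s, 1 - s, -β1, -β2, -β3]`. A dependency `la` has, with `σ = la 0 + la 1`,
`σ * a0 + (la 0 - la 1) * L = 0`, and then `la = σ * mu`. `max mu 0 = ![s, 1 - s, 0, 0, 0]`, sum `1`, so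
`z = s • (v + L • d) + (1 - s) • (v - L • d) = v - a0 • d = b1 • w1 + b2 • w2`.
-/

namespace TVD

private theorem gadgets_indep {V : Type*} [AddCommGroup V] [Module ℝ V] (w0 w1 w2 : V)
    (hw : LinearIndependent ℝ ![w0, w1, w2]) (p q r : ℝ) (h : p • w0 + q • w1 + r • w2 = 0) :
    p = 0 ∧ q = 0 ∧ r = 0 := by
  have h1 := Fintype.linearIndependent_iff.1 hw ![p, q, r]
    (by simpa [Fin.sum_univ_three] using h)
  exact ⟨by simpa using h1 0, by simpa using h1 1, by simpa using h1 2⟩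

private theorem gadgets_sum_real (f : Fin 5 → ℝ) : ∑ i, f i = f 0 + f 1 + f 2 + f 3 + f 4 :=
  Fin.sum_univ_five f

theorem relu_gadget {V : Type*} [AddCommGroup V] [Module ℝ V] (w0 w1 w2 : V)
    (hw : LinearIndependent ℝ ![w0, w1, w2]) (a h : ℝ) (hh : 0 < h) (ha : a ≤ h) (z : V)
    (hz : IsRadon ![0, a • w0, w1, w2, (3 * h) • w0 - w1 - w2] z) : z = (max a 0) • w0 := by
  have key := radon_formula ![0, a • w0, w1, w2, (3 * h) • w0 - w1 - w2]
    ![3 * a - 3 * h, 3 * h, -a, -a, -a] (by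
      intro la h1 h2
      rw [Fin.sum_univ_five] at h1 h2
      have e0 : (![0, a • w0, w1, w2, (3 * h) • w0 - w1 - w2] : Fin 5 → V) 0 = 0 := rfl
      have e1 : (![0, a • w0, w1, w2, (3 * h) • w0 - w1 - w2] : Fin 5 → V) 1 = a • w0 := rfl
      have e2 : (![0, a • w0, w1, w2, (3 * h) • w0 - w1 - w2] : Fin 5 → V) 2 = w1 := rfl
      have e3 : (![0, a • w0, w1, w2, (3 * h) • w0 - w1 - w2] : Fin 5 → V) 3 = w2 := rfl
      have e4 : (![0, a • w0, w1, w2, (3 * h) • w0 - w1 - w2] : Fin 5 → V) 4 =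
        (3 * h) • w0 - w1 - w2 := rfl
      rw [e0, e1, e2, e3, e4] at h2
      have h3 : (la 1 * a + 3 * h * la 4) • w0 + (la 2 - la 4) • w1 + (la 3 - la 4) • w2 = 0 := by
        rw [← h2]
        module
      obtain ⟨g0, g1, g2⟩ := gadgets_indep w0 w1 w2 hw _ _ _ h3
      have hh' : h ≠ 0 := hh.ne'
      have k4 : la 4 = la 1 / (3 * h) * (-a) := by
        field_simp
        linarith
      have k1 : la 1 = la 1 / (3 * h) * (3 * h) := by field_simp
      refine ⟨la 1 / (3 * h), fun i => ?_⟩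
      fin_cases i
      · show la 0 = la 1 / (3 * h) * (3 * a - 3 * h)
        have : la 1 / (3 * h) * (3 * a - 3 * h) =
            -(3 * (la 1 / (3 * h) * (-a))) - la 1 / (3 * h) * (3 * h) := by ring
        rw [this, ← k4, ← k1]
        linarith
      · show la 1 = la 1 / (3 * h) * (3 * h)
        exact k1
      · show la 2 = la 1 / (3 * h) * (-a)
        rw [← k4]
        linarith
      · show la 3 = la 1 / (3 * h) * (-a)
        rw [← k4]
        linarith
      · show la 4 = la 1 / (3 * h) * (-a)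
        exact k4) z hz
  rw [Fin.sum_univ_five, Fin.sum_univ_five] at key
  have key' : (max (3 * a - 3 * h) 0 + max (3 * h) 0 + max (-a) 0 + max (-a) 0 + max (-a) 0) • z =
      max (3 * a - 3 * h) 0 • (0 : V) + max (3 * h) 0 • (a • w0) + max (-a) 0 • w1 +
        max (-a) 0 • w2 + max (-a) 0 • ((3 * h) • w0 - w1 - w2) := key
  have m0 : max (3 * a - 3 * h) 0 = 0 := max_eq_right (by linarith)
  have m1 : max (3 * h) 0 = 3 * h := max_eq_left (by linarith)
  rw [m0, m1] at key'
  rcases lt_or_ge 0 a with hpos | hneg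
  · have m2 : max (-a) 0 = 0 := max_eq_right (by linarith)
    have m3 : max a 0 = a := max_eq_left hpos.le
    rw [m2] at key'
    rw [m3]
    have h5 : (3 * h) • z = (3 * h) • (a • w0) := by
      have e1 : (3 * h) • z = (0 + 3 * h + 0 + 0 + 0 : ℝ) • z := by congr 1; ring
      rw [e1, key']
      module
    exact smul_right_injective V (by positivity : (3 * h : ℝ) ≠ 0) h5
  · have m2 : max (-a) 0 = -a := max_eq_left (by linarith)
    have m3 : max a 0 = 0 := max_eq_right hneg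
    rw [m2] at key'
    rw [m3, zero_smul]
    have h5 : (3 * h - 3 * a) • z = 0 := by
      have e1 : (3 * h - 3 * a) • z = (0 + 3 * h + -a + -a + -a : ℝ) • z := by congr 1; ring
      rw [e1, key']
      module
    rcases smul_eq_zero.1 h5 with h6 | h6
    · exfalso
      linarith
    · exact h6

theorem kill_gadget {V : Type*} [AddCommGroup V] [Module ℝ V] (w0 w1 w2 : V)
    (hw : LinearIndependent ℝ ![w0, w1, w2]) (a0 a1 a2 d1 d2 L : ℝ) (hL : 0 < L) (h0 : |a0| < L)
    (h1 : |a1 - a0 * d1| ≤ L / 4) (h2 : |a2 - a0 * d2| ≤ L / 4) (v d z : V)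
    (hv : v = a0 • w0 + a1 • w1 + a2 • w2) (hd : d = w0 + d1 • w1 + d2 • w2)
    (hz : IsRadon ![v + L • d, v - L • d, L • w1, L • w2, -(L • w1) - L • w2] z) :
    z = (a1 - a0 * d1) • w1 + (a2 - a0 * d2) • w2 := by
  obtain ⟨b1, hb1⟩ : ∃ b1, b1 = a1 - a0 * d1 := ⟨_, rfl⟩
  obtain ⟨b2, hb2⟩ : ∃ b2, b2 = a2 - a0 * d2 := ⟨_, rfl⟩
  rw [← hb1] at h1
  rw [← hb2] at h2
  rw [← hb1, ← hb2]
  have hL' : L ≠ 0 := hL.ne'
  obtain ⟨h1a, h1b⟩ := abs_le.1 h1
  obtain ⟨h2a, h2b⟩ := abs_le.1 h2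
  obtain ⟨h0a, h0b⟩ := abs_lt.1 h0
  have ha1 : a1 = b1 + a0 * d1 := by linarith
  have ha2 : a2 = b2 + a0 * d2 := by linarith
  set s : ℝ := (1 - a0 / L) / 2 with hs
  set B3 : ℝ := (1 - (b1 + b2) / L) / 3 with hB3
  set B1 : ℝ := B3 + b1 / L with hB1
  set B2 : ℝ := B3 + b2 / L with hB2
  have q0 : a0 / L < 1 := (div_lt_one hL).2 h0b
  have q0' : -1 < a0 / L := by rw [lt_div_iff₀ hL]; linarith
  have q1 : b1 / L ≤ 1 / 4 := by rw [div_le_iff₀ hL]; linarith
  have q1' : -(1 / 4) ≤ b1 / L := by rw [le_div_iff₀ hL]; linarith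
  have q2 : b2 / L ≤ 1 / 4 := by rw [div_le_iff₀ hL]; linarith
  have q2' : -(1 / 4) ≤ b2 / L := by rw [le_div_iff₀ hL]; linarith
  have e12 : (b1 + b2) / L = b1 / L + b2 / L := add_div _ _ _
  have ps : 0 ≤ s := by rw [hs]; linarith
  have ps' : 0 ≤ 1 - s := by rw [hs]; linarith
  have pB3 : 0 ≤ B3 := by rw [hB3, e12]; linarith
  have pB1 : 0 ≤ B1 := by rw [hB1, hB3, e12]; linarith
  have pB2 : 0 ≤ B2 := by rw [hB2, hB3, e12]; linarith
  have key := radon_formula ![v + L • d, v - L • d, L • w1, L • w2, -(L • w1) - L • w2]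
    ![s, 1 - s, -B1, -B2, -B3] (by
      intro la g1 g2
      rw [Fin.sum_univ_five] at g1 g2
      have g2' : la 0 • (v + L • d) + la 1 • (v - L • d) + la 2 • (L • w1) + la 3 • (L • w2) +
        la 4 • (-(L • w1) - L • w2) = 0 := g2
      rw [hv, hd] at g2'
      have g3 : ((la 0 + la 1) * a0 + (la 0 - la 1) * L) • w0 +
          ((la 0 + la 1) * a1 + (la 0 - la 1) * L * d1 + (la 2 - la 4) * L) • w1 +
          ((la 0 + la 1) * a2 + (la 0 - la 1) * L * d2 + (la 3 - la 4) * L) • w2 = 0 := by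
        rw [← g2']
        module
      obtain ⟨k0, k1, k2⟩ := gadgets_indep w0 w1 w2 hw _ _ _ g3
      set σ : ℝ := la 0 + la 1 with hσ
      have m0 : la 0 - la 1 = -(σ * (a0 / L)) := by
        field_simp
        linarith
      have m0L : (la 0 - la 1) * L = -(σ * a0) := by linarith
      have m2 : la 2 - la 4 = -(σ * (b1 / L)) := by
        field_simp
        rw [m0L, ha1] at k1
        linarith
      have m3 : la 3 - la 4 = -(σ * (b2 / L)) := by
        field_simp
        rw [m0L, ha2] at k2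
        linarith
      have n4 : la 4 = σ * (-B3) := by
        rw [hB3, e12]
        linarith
      have n2 : la 2 = σ * (-B1) := by
        rw [hB1]
        linarith
      have n3 : la 3 = σ * (-B2) := by
        rw [hB2]
        linarith
      have n0 : la 0 = σ * s := by
        rw [hs]
        linarith
      have n1 : la 1 = σ * (1 - s) := by
        rw [hs]
        linarith
      refine ⟨σ, fun i => ?_⟩
      fin_cases i
      · exact n0
      · exact n1
      · exact n2
      · exact n3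
      · exact n4) z hz
  rw [Fin.sum_univ_five, Fin.sum_univ_five] at key
  have key' : (max s 0 + max (1 - s) 0 + max (-B1) 0 + max (-B2) 0 + max (-B3) 0) • z =
      max s 0 • (v + L • d) + max (1 - s) 0 • (v - L • d) + max (-B1) 0 • (L • w1) +
        max (-B2) 0 • (L • w2) + max (-B3) 0 • (-(L • w1) - L • w2) := key
  rw [max_eq_left ps, max_eq_left ps', max_eq_right (by linarith : -B1 ≤ 0),
    max_eq_right (by linarith : -B2 ≤ 0), max_eq_right (by linarith : -B3 ≤ 0)] at key'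
  have e1 : z = (s + (1 - s) + 0 + 0 + 0 : ℝ) • z := by
    have : (s + (1 - s) + 0 + 0 + 0 : ℝ) = 1 := by ring
    rw [this, one_smul]
  have e2 : (2 * s - 1) * L = -a0 := by
    rw [hs]
    field_simp
    ring
  rw [e1, key']
  have e3 : s • (v + L • d) + (1 - s) • (v - L • d) + (0 : ℝ) • (L • w1) + (0 : ℝ) • (L • w2) +
      (0 : ℝ) • (-(L • w1) - L • w2) = v + ((2 * s - 1) * L) • d := by module
  rw [e3, e2, hv, hd, ha1, ha2]
  module

end TVD
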