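import Pool.Agent.H47.TVD.Compile
import Pool.Agent.H47.TVD.AffForm

set_option autoImplicit false

/-!
# Homog: from the affine to the homogeneous form

PROOF. `d = 4 + g`, `k = g + 1`, `d - k = 3`; `g + 2` sets: the `g` families of the context (`r = 2`, `N = 5`), one
family of nine vectors (`r = 3`, `N = 9`), one family with one vector (`r = 1`, `N = 1`). Everything in
`ℝ^(4+g+1) = ℝ^(d+1)`: `j = Fin.snoc · 0`, `e = Fin.snoc 0 1`; the vectors are `j (C i l)`, `j (v l) - e`, `-e`.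
`La' x = La (Fin.init x) - M * x (Fin.last _)`, `M > 0` large, is positive on all of them.
`homog_form`: for vectors `w` in `ℝ^(d+1)` with `La' w > 0` apply `aff_form` to the points
`p = E (w / La' w - e')`, where `La' e' = 1` and `E` is a linear equivalence of `ker La'` (dimension `d`) with
`EuclideanSpace ℝ (Fin d)`; put `Q x = (s ↦ ⟪a s, E (x - La' x • e')⟫ - b s * La' x)`, linear, surjective (`a` is
orthonormal), and `Q w = La' w • (⟪a s, p⟫ - b s)`, so `split_pos` (positive scaling does not change `Split`).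
For the one-element family `Split 1` means `Q (-e) = 0`. So `q = Q ∘ j` satisfies `Q x = q (Fin.init x)`, it is
surjective, and `Q (j (v l) - e) = q (v l)`.
-/

namespace TVD

theorem split_pos {ι V : Type*} [AddCommGroup V] [Module ℝ V] (r : ℕ) (w w' : ι → V)
    (la : ι → ℝ) (hla : ∀ i, 0 < la i) (hw : ∀ i, w' i = la i • w i) (h : Split r w) :
    Split r w' := by
  obtain ⟨A, hA, h0⟩ := h
  refine ⟨A, hA, fun j => ?_⟩
  obtain ⟨κ, _, μ, z, hμ, hμ1, hz, hs⟩ := mem_convexHull_iff_exists_fintype.1 (h0 j)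
  choose f hf hfz using hz
  have hnn : ∀ i, 0 ≤ μ i / la (f i) := fun i => div_nonneg (hμ i) (hla _).le
  have hpos : 0 < ∑ i, μ i / la (f i) := by
    have h1 : ∃ i, μ i ≠ 0 := by
      by_contra hcon
      push Not at hcon
      rw [Finset.sum_eq_zero (fun i _ => hcon i)] at hμ1
      exact zero_ne_one hμ1
    obtain ⟨i, hi⟩ := h1
    have h2 : 0 < μ i / la (f i) := div_pos (lt_of_le_of_ne (hμ i) (Ne.symm hi)) (hla _)
    exact h2.trans_le (Finset.single_le_sum (f := fun i => μ i / la (f i)) (fun i _ => hnn i) (Finset.mem_univ i))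
  refine mem_convexHull_iff_exists_fintype.2 ⟨κ, inferInstance,
    fun i => (∑ i, μ i / la (f i))⁻¹ * (μ i / la (f i)), fun i => w' (f i), ?_, ?_, ?_, ?_⟩
  · intro i
    exact mul_nonneg (inv_nonneg.2 hpos.le) (hnn i)
  · rw [← Finset.mul_sum]
    exact inv_mul_cancel₀ hpos.ne'
  · intro i
    exact ⟨f i, hf i, rfl⟩
  · have h1 : ∀ i, ((∑ i, μ i / la (f i))⁻¹ * (μ i / la (f i))) • w' (f i) =
        (∑ i, μ i / la (f i))⁻¹ • (μ i • z i) := by
      intro i
      rw [hw, ← hfz i, mul_smul, smul_smul (μ i / la (f i)), div_mul_cancel₀ _ (hla _).ne']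
    rw [Finset.sum_congr rfl (fun i _ => h1 i), ← Finset.smul_sum, hs, smul_zero]

/-- The statement for families of vectors in `ℝ^(d+1)` on which a linear functional is positive. -/
theorem homog_form (H : TVStatement) (d k : ℕ) (hk : k + 1 ≤ d) (r : Fin (k + 1) → ℕ)
    (hr : ∀ i, 1 ≤ r i) (N : Fin (k + 1) → ℕ) (hN : ∀ i, N i = (r i - 1) * (d - k + 1) + 1)
    (w : ∀ i, Fin (N i) → (Fin (d + 1) → ℝ)) (La : (Fin (d + 1) → ℝ) →ₗ[ℝ] ℝ)
    (hLa : ∀ i l, 0 < La (w i l)) :
    ∃ Q : (Fin (d + 1) → ℝ) →ₗ[ℝ] (Fin (d - k) → ℝ), Function.Surjective Q ∧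
      ∀ i, Split (r i) (fun l => Q (w i l)) := by
  have h00 : 0 < N 0 := by rw [hN]; omega
  obtain ⟨e', he'⟩ : ∃ e' : Fin (d + 1) → ℝ, La e' = 1 := by
    refine ⟨(La (w 0 ⟨0, h00⟩))⁻¹ • w 0 ⟨0, h00⟩, ?_⟩
    rw [map_smul, smul_eq_mul]
    exact inv_mul_cancel₀ (hLa _ _).ne'
  have hfin : Module.finrank ℝ (LinearMap.ker La) = Module.finrank ℝ (EuclideanSpace ℝ (Fin d)) := by
    have h1 := LinearMap.finrank_range_add_finrank_ker La
    have h2 : LinearMap.range La = ⊤ := by
      rw [LinearMap.range_eq_top]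
      intro y
      exact ⟨y • e', by rw [map_smul, he', smul_eq_mul, mul_one]⟩
    rw [h2, finrank_top, Module.finrank_self, Module.finrank_fin_fun] at h1
    rw [finrank_euclideanSpace_fin]
    omega
  let E : LinearMap.ker La ≃ₗ[ℝ] EuclideanSpace ℝ (Fin d) := LinearEquiv.ofFinrankEq _ _ hfin
  let P : (Fin (d + 1) → ℝ) →ₗ[ℝ] LinearMap.ker La :=
    LinearMap.codRestrict (LinearMap.ker La) (LinearMap.id - La.smulRight e') (by
      intro x
      rw [LinearMap.mem_ker, LinearMap.sub_apply, map_sub, LinearMap.smulRight_apply, map_smul, he',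
        LinearMap.id_apply, smul_eq_mul, mul_one, sub_self])
  let T : (Fin (d + 1) → ℝ) →ₗ[ℝ] EuclideanSpace ℝ (Fin d) := E.toLinearMap ∘ₗ P
  obtain ⟨a, b, ha, hs⟩ := aff_form H d k hk r hr N hN (fun i l => (La (w i l))⁻¹ • T (w i l))
  let Q : (Fin (d + 1) → ℝ) →ₗ[ℝ] (Fin (d - k) → ℝ) :=
    LinearMap.pi (fun s => (innerₛₗ ℝ (a s)) ∘ₗ T - b s • La)
  have hQ : ∀ x s, Q x s = inner ℝ (a s) (T x) - b s * La x := fun x s => rfl
  refine ⟨Q, ?_, ?_⟩
  · intro y
    have hmem : La ((E.symm (∑ t, y t • a t) : LinearMap.ker La) : Fin (d + 1) → ℝ) = 0 :=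
      (E.symm (∑ t, y t • a t)).2
    have hP : P ((E.symm (∑ t, y t • a t) : LinearMap.ker La) : Fin (d + 1) → ℝ) =
        E.symm (∑ t, y t • a t) := by
      apply Subtype.ext
      show ((E.symm (∑ t, y t • a t) : LinearMap.ker La) : Fin (d + 1) → ℝ) -
        La ((E.symm (∑ t, y t • a t) : LinearMap.ker La) : Fin (d + 1) → ℝ) • e' = _
      rw [hmem, zero_smul, sub_zero]
    refine ⟨((E.symm (∑ t, y t • a t) : LinearMap.ker La) : Fin (d + 1) → ℝ), ?_⟩
    funext s
    have hT : T ((E.symm (∑ t, y t • a t) : LinearMap.ker La) : Fin (d + 1) → ℝ) = ∑ t, y t • a t := by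
      show E (P ((E.symm (∑ t, y t • a t) : LinearMap.ker La) : Fin (d + 1) → ℝ)) = _
      rw [hP, LinearEquiv.apply_symm_apply]
    rw [hQ, hmem, hT, mul_zero, sub_zero]
    exact ha.inner_right_fintype y s
  · intro i
    refine split_pos (r i) _ _ (fun l => La (w i l)) (fun l => hLa i l) ?_ (hs i)
    intro l
    funext s
    rw [Pi.smul_apply, smul_eq_mul, hQ, inner_smul_right]
    have h1 := (hLa i l).ne'
    field_simp

private theorem homog_cast {V : Type*} [AddCommGroup V] [Module ℝ V] (f : ℕ → V) (r r' n n' : ℕ)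
    (hr : r = r') (hn : n = n') (h : Split r (fun l : Fin n => f l)) : Split r' (fun l : Fin n' => f l) := by
  subst hr
  subst hn
  exact h

private theorem homog_dim {V : Type*} [AddCommGroup V] [Module ℝ V] {κ : Type} (r : κ → ℕ) (N : κ → ℕ)
    (w : ∀ i, Fin (N i) → V) (m : ℕ) (hm : m = 3)
    (h : ∃ Q : V →ₗ[ℝ] (Fin m → ℝ), Function.Surjective Q ∧ ∀ i, Split (r i) (fun l => Q (w i l))) :
    ∃ Q : V →ₗ[ℝ] (Fin 3 → ℝ), Function.Surjective Q ∧ ∀ i, Split (r i) (fun l => Q (w i l)) := by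
  subst hm
  exact h

theorem homog (H : TVStatement) (c : Ctx) (hc : c.Pos) (v : Fin 9 → (Fin (4 + c.g) → ℝ)) :
    ∃ q, c.Valid q ∧ Split 3 (fun l => q (v l)) := by
  obtain ⟨La, hLa⟩ := hc
  -- the embedding and the new vector
  let j : (Fin (4 + c.g) → ℝ) →ₗ[ℝ] (Fin (4 + c.g + 1) → ℝ) :=
    { toFun := fun x => Fin.snoc (α := fun _ => ℝ) x 0
      map_add' := by
        intro x y
        funext s
        refine Fin.lastCases ?_ (fun s => ?_) s
        · rw [Pi.add_apply, Fin.snoc_last, Fin.snoc_last, Fin.snoc_last, add_zero]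
        · rw [Pi.add_apply, Fin.snoc_castSucc, Fin.snoc_castSucc, Fin.snoc_castSucc, Pi.add_apply]
      map_smul' := by
        intro a x
        funext s
        refine Fin.lastCases ?_ (fun s => ?_) s
        · rw [RingHom.id_apply, Pi.smul_apply, Fin.snoc_last, Fin.snoc_last, smul_zero]
        · rw [RingHom.id_apply, Pi.smul_apply, Fin.snoc_castSucc, Fin.snoc_castSucc, Pi.smul_apply] }
  have hj0 : ∀ x s, j x (Fin.castSucc s) = x s := fun x s => Fin.snoc_castSucc (α := fun _ => ℝ) _ _ _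
  have hj1 : ∀ x, j x (Fin.last _) = 0 := fun x => Fin.snoc_last (α := fun _ => ℝ) _ _
  let pr : (Fin (4 + c.g + 1) → ℝ) →ₗ[ℝ] (Fin (4 + c.g) → ℝ) := LinearMap.funLeft ℝ ℝ Fin.castSucc
  have hpr : ∀ x s, pr x s = x (Fin.castSucc s) := fun x s => rfl
  obtain ⟨e, he⟩ : ∃ e : Fin (4 + c.g + 1) → ℝ, e = Pi.single (Fin.last _) 1 := ⟨_, rfl⟩
  have hel : e (Fin.last _) = 1 := by rw [he, Pi.single_eq_same]
  have hec : ∀ s, e (Fin.castSucc s) = 0 := by
    intro s
    rw [he, Pi.single_eq_of_ne (Fin.castSucc_lt_last s).ne]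
  have hprj : ∀ x, pr (j x) = x := fun x => funext fun s => by rw [hpr, hj0]
  have hpre : pr e = 0 := funext fun s => by rw [hpr, hec, Pi.zero_apply]
  obtain ⟨M, hM⟩ : ∃ M : ℝ, M = 1 + ∑ l, |La (v l)| := ⟨_, rfl⟩
  have hMpos : ∀ l, 0 < La (v l) + M := by
    intro l
    have h1 : |La (v l)| ≤ ∑ l, |La (v l)| :=
      Finset.single_le_sum (f := fun l => |La (v l)|) (fun i _ => abs_nonneg _) (Finset.mem_univ l)
    have h2 := neg_abs_le (La (v l))
    linarith
  have hM0 : 0 < M := by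
    have : 0 ≤ ∑ l, |La (v l)| := Finset.sum_nonneg fun _ _ => abs_nonneg _
    linarith
  let La' : (Fin (4 + c.g + 1) → ℝ) →ₗ[ℝ] ℝ := La ∘ₗ pr - M • LinearMap.proj (Fin.last _)
  have hLa' : ∀ x, La' x = La (pr x) - M * x (Fin.last _) := fun x => rfl
  -- the vectors
  let W : ℕ → ℕ → (Fin (4 + c.g + 1) → ℝ) := fun i l =>
    if h : i < c.g then (if hl : l < 5 then j (c.C ⟨i, h⟩ ⟨l, hl⟩) else -e)
    else if i = c.g then (if hl : l < 9 then j (v ⟨l, hl⟩) - e else -e) else -e
  have hWneg : 0 < La' (-e) := by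
    rw [hLa', map_neg, hpre, neg_zero, map_zero, Pi.neg_apply, hel]
    linarith
  have hWpos : ∀ i l, 0 < La' (W i l) := by
    intro i l
    by_cases h : i < c.g
    · by_cases hl : l < 5
      · have h1 : W i l = j (c.C ⟨i, h⟩ ⟨l, hl⟩) := by simp only [W, dif_pos h, dif_pos hl]
        rw [h1, hLa', hprj, hj1, mul_zero, sub_zero]
        exact hLa _ _
      · have h1 : W i l = -e := by simp only [W, dif_pos h, dif_neg hl]
        rw [h1]
        exact hWneg
    · by_cases h2 : i = c.g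
      · by_cases hl : l < 9
        · have h1 : W i l = j (v ⟨l, hl⟩) - e := by simp only [W, dif_neg h, if_pos h2, dif_pos hl]
          rw [h1, hLa', map_sub, hprj, hpre, sub_zero, Pi.sub_apply, hj1, hel]
          have := hMpos ⟨l, hl⟩
          linarith
        · have h1 : W i l = -e := by simp only [W, dif_neg h, if_pos h2, dif_neg hl]
          rw [h1]
          exact hWneg
      · have h1 : W i l = -e := by simp only [W, dif_neg h, if_neg h2]
        rw [h1]
        exact hWneg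
  let r : Fin (c.g + 1 + 1) → ℕ := fun i => if i.val < c.g then 2 else if i.val = c.g then 3 else 1
  have hr1 : ∀ i, 1 ≤ r i := by
    intro i
    show 1 ≤ (if i.val < c.g then 2 else if i.val = c.g then 3 else 1)
    split_ifs <;> omega
  have hdk : 4 + c.g - (c.g + 1) = 3 := by omega
  obtain ⟨Q, hQs, hQ⟩ := homog_dim r (fun i => (r i - 1) * (4 + c.g - (c.g + 1) + 1) + 1)
    (fun i l => W i.val l.val) (4 + c.g - (c.g + 1)) hdk
    (homog_form H (4 + c.g) (c.g + 1) (by omega) r hr1 _ (fun i => rfl) (fun i l => W i.val l.val) La'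
      (fun i l => hWpos _ _))
  have hQe : Q e = 0 := by
    have h1 := hQ ⟨c.g + 1, by omega⟩
    have h2 : r ⟨c.g + 1, by omega⟩ = 1 := by
      show (if c.g + 1 < c.g then 2 else if c.g + 1 = c.g then 3 else 1) = 1
      rw [if_neg (by omega), if_neg (by omega)]
    have h3 := homog_cast (fun l => Q (W (c.g + 1) l)) _ 1 _ 1 h2 (by rw [h2, Nat.sub_self, zero_mul]) h1
    obtain ⟨A, -, hA⟩ := h3
    have h4 : ((fun l : Fin 1 => Q (W (c.g + 1) l)) '' A 0) ⊆ {Q (-e)} := by
      rintro _ ⟨l, -, rfl⟩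
      have h5 : W (c.g + 1) l = -e := by
        simp only [W, dif_neg (show ¬ c.g + 1 < c.g by omega), if_neg (show ¬ c.g + 1 = c.g by omega)]
      show Q (W (c.g + 1) l) ∈ _
      rw [h5]
      exact Set.mem_singleton _
    have h6 := convexHull_mono h4 (hA 0)
    rw [convexHull_singleton, Set.mem_singleton_iff, map_neg] at h6
    exact neg_eq_zero.1 h6.symm
  refine ⟨Q ∘ₗ j, ⟨?_, ?_⟩, ?_⟩
  · intro y
    obtain ⟨x, hx⟩ := hQs y
    refine ⟨pr x, ?_⟩
    have h1 : x = j (pr x) + x (Fin.last _) • e := by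
      funext s
      refine Fin.lastCases ?_ (fun s => ?_) s
      · rw [Pi.add_apply, hj1, Pi.smul_apply, hel, smul_eq_mul, mul_one, zero_add]
      · rw [Pi.add_apply, hj0, Pi.smul_apply, hec, smul_zero, add_zero, hpr]
    rw [← hx]
    show Q (j (pr x)) = Q x
    conv_rhs => rw [h1]
    rw [map_add, map_smul, hQe, smul_zero, add_zero]
  · intro i
    have h1 := hQ ⟨i.val, by omega⟩
    have h2 : r ⟨i.val, by omega⟩ = 2 := by
      show (if i.val < c.g then 2 else if i.val = c.g then 3 else 1) = 2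
      rw [if_pos i.2]
    have h3 := homog_cast (fun l => Q (W i.val l)) _ 2 _ 5 h2 (by rw [h2, hdk]) h1
    have h4 : (fun l : Fin 5 => Q (W i.val l)) = fun l => (Q ∘ₗ j) (c.C i l) := by
      funext l
      have h5 : W i.val l.val = j (c.C i l) := by simp only [W, dif_pos i.2, dif_pos l.2]
      rw [h5]
      rfl
    rw [h4] at h3
    exact h3
  · have h1 := hQ ⟨c.g, by omega⟩
    have h2 : r ⟨c.g, by omega⟩ = 3 := by
      show (if c.g < c.g then 2 else if c.g = c.g then 3 else 1) = 3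
      rw [if_neg (lt_irrefl _), if_pos rfl]
    have h3 := homog_cast (fun l => Q (W c.g l)) _ 3 _ 9 h2 (by rw [h2, hdk]) h1
    have h4 : (fun l : Fin 9 => Q (W c.g l)) = fun l => (Q ∘ₗ j) (v l) := by
      funext l
      have h5 : W c.g l.val = j (v l) - e := by
        simp only [W, dif_neg (lt_irrefl c.g), if_true, dif_pos l.2]
      rw [h5, map_sub, hQe, sub_zero]
      rfl
    rw [h4] at h3
    exact h3

end TVD
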