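import Pool.Agent.H47.TVD.Gadgets
import Pool.Agent.H47.TVD.Chart

set_option autoImplicit false

/-!
# Rep: functions representable by terms on `KK c δ`

`Rep c δ h`: for every axis `k` there is a term all of whose values at `x ∈ KK c δ` equal `h x • proj x (w k)`.

* `rep_const`: `Tm.lin a 0 (const (w k)) (const (w k))` (or `Tm.const (a • w k)`).
* `rep_lin`: `Tm.lin`.
* `rep_axis`: if ONE axis `i` has such a term and `h` is bounded on `KK c δ` then all axes do: kill gadget with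
  `w0 := w i`, `w1 := w j`, `w2 := ` the third one, `d = w i - w j`, `v = h x • w i`, `a0 = h x`, `a1 = a2 = 0`,
  `d1 = -1`, `d2 = 0`, `L` large: the value is `h x • w j`. The term is
  `rad ![lin 1 L t (const (w i - w j)), lin 1 (-L) t (const (w i - w j)), const (L • w j), const (L • w k),
  const (-(L • w j) - L • w k)]`. The linear independence is `proj_indep` up to a permutation of the three vectors.
* `rep_coord`: `const (-e0)` has the value `y1 w1 + y2 w2 + y3 w3`, `y_k = x k / om c x` (`proj_rel`), bounded by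
  `1 / δ` (as `|x k| ≤ 1`). Kill gadget with `d = w i`: value without the `i`-th summand; subtract from
  `const (-e0)` (`Tm.lin 1 (-1)`): the value is `y_i w_i`. Then `rep_axis`.
* `rep_relu`: `rad ![const 0, t, const (w j), const (w k), const ((3 H) • w i - w j - w k)]`, `relu_gadget`.
* `rep_sup`, `rep_inf`: `max f g = g + max (f - g) 0`, `min f g = f - max (f - g) 0`.
-/

namespace TVD

def Rep (c δ : ℝ) (h : (Fin 4 → ℝ) → ℝ) : Prop :=
  ∀ k : Fin 3, ∃ t : Tm, ∀ x ∈ KK c δ, ∀ z ∈ t.sem (proj x), z = h x • proj x (wv c k)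

def Bdd (c δ : ℝ) (h : (Fin 4 → ℝ) → ℝ) : Prop := ∃ M : ℝ, ∀ x ∈ KK c δ, |h x| ≤ M

private theorem rep_indep (c : ℝ) {x : Fin 4 → ℝ} (hx : x ∈ Sph) (hc : om c x ≠ 0) {i j k : Fin 3}
    (hij : i ≠ j) (hik : i ≠ k) (hjk : j ≠ k) :
    LinearIndependent ℝ ![proj x (wv c i), proj x (wv c j), proj x (wv c k)] := by
  have h1 := proj_indep c hx hc
  have h2 : ![proj x (wv c 0), proj x (wv c 1), proj x (wv c 2)] = fun m : Fin 3 => proj x (wv c m) := by
    funext m
    fin_cases m <;> rfl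
  rw [h2] at h1
  have h3 : Function.Injective (![i, j, k] : Fin 3 → Fin 3) := by
    intro a b hab
    fin_cases a <;> fin_cases b <;> simp at hab ⊢
    all_goals first
      | exact hij hab
      | exact hij hab.symm
      | exact hik hab
      | exact hik hab.symm
      | exact hjk hab
      | exact hjk hab.symm
  have h4 := h1.comp _ h3
  have h5 : ((fun m : Fin 3 => proj x (wv c m)) ∘ (![i, j, k] : Fin 3 → Fin 3)) =
      ![proj x (wv c i), proj x (wv c j), proj x (wv c k)] := by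
    funext m
    fin_cases m <;> rfl
  rwa [h5] at h4

private theorem rep_om_ne {c δ : ℝ} (hδ : 0 < δ) {x : Fin 4 → ℝ} (hx : x ∈ KK c δ) : om c x ≠ 0 := by
  intro h
  have := hx.2
  rw [h, abs_zero] at this
  linarith

private theorem rep_vec {V : Type*} {w : Fin 5 → V} {a0 a1 a2 a3 a4 : V} (h0 : w 0 = a0) (h1 : w 1 = a1)
    (h2 : w 2 = a2) (h3 : w 3 = a3) (h4 : w 4 = a4) : w = ![a0, a1, a2, a3, a4] := by
  funext m
  fin_cases m
  · exact h0
  · exact h1
  · exact h2
  · exact h3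
  · exact h4

private theorem rep_third (i : Fin 3) : ∃ j k : Fin 3, i ≠ j ∧ i ≠ k ∧ j ≠ k := by
  fin_cases i
  · exact ⟨1, 2, by decide, by decide, by decide⟩
  · exact ⟨0, 2, by decide, by decide, by decide⟩
  · exact ⟨0, 1, by decide, by decide, by decide⟩

private theorem rep_third2 (i j : Fin 3) (hij : i ≠ j) : ∃ k : Fin 3, i ≠ k ∧ j ≠ k := by
  revert i j
  decide

theorem rep_const (c δ a : ℝ) : Rep c δ (fun _ => a) := by
  intro k
  refine ⟨Tm.const (a • wv c k), ?_⟩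
  intro x _ z hz
  have h1 : z = proj x (a • wv c k) := hz
  rw [h1, proj_smul]

theorem rep_lin {c δ : ℝ} {f g : (Fin 4 → ℝ) → ℝ} (a b : ℝ) (hf : Rep c δ f) (hg : Rep c δ g) :
    Rep c δ (fun x => a * f x + b * g x) := by
  intro k
  obtain ⟨s, hs⟩ := hf k
  obtain ⟨t, ht⟩ := hg k
  refine ⟨Tm.lin a b s t, ?_⟩
  rintro x hx z ⟨u, hu, v, hv, rfl⟩
  rw [hs x hx u hu, ht x hx v hv, add_smul, mul_smul, mul_smul]

theorem rep_axis {c δ : ℝ} (hδ : 0 < δ) {h : (Fin 4 → ℝ) → ℝ} (hb : Bdd c δ h) (i : Fin 3)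
    (ht : ∃ t : Tm, ∀ x ∈ KK c δ, ∀ z ∈ t.sem (proj x), z = h x • proj x (wv c i)) : Rep c δ h := by
  intro j
  by_cases hij : i = j
  · subst hij
    exact ht
  obtain ⟨k, hik, hjk⟩ := rep_third2 i j hij
  obtain ⟨t, ht⟩ := ht
  obtain ⟨M, hM⟩ := hb
  obtain ⟨L, hL⟩ : ∃ L : ℝ, L = 4 * |M| + 1 := ⟨_, rfl⟩
  have hL0 : 0 < L := by rw [hL]; positivity
  refine ⟨Tm.rad ![Tm.lin 1 L t (Tm.const (wv c i - wv c j)), Tm.lin 1 (-L) t (Tm.const (wv c i - wv c j)),
    Tm.const (L • wv c j), Tm.const (L • wv c k), Tm.const (-(L • wv c j) - L • wv c k)], ?_⟩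
  rintro x hx z ⟨w, hw, hz⟩
  have hd : proj x (wv c i - wv c j) = proj x (wv c i) - proj x (wv c j) := by
    have h1 : wv c i - wv c j = wv c i + (-1 : ℝ) • wv c j := by
      rw [neg_one_smul, sub_eq_add_neg]
    rw [h1, proj_add, proj_smul, neg_one_smul, ← sub_eq_add_neg]
  have w0 : w 0 = h x • proj x (wv c i) + L • (proj x (wv c i) - proj x (wv c j)) := by
    obtain ⟨u, hu, v, hv, h2⟩ := hw 0
    have hv' : v = proj x (wv c i - wv c j) := hv
    rw [h2, ht x hx u hu, hv', hd, one_smul]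
  have w1 : w 1 = h x • proj x (wv c i) - L • (proj x (wv c i) - proj x (wv c j)) := by
    obtain ⟨u, hu, v, hv, h2⟩ := hw 1
    have hv' : v = proj x (wv c i - wv c j) := hv
    rw [h2, ht x hx u hu, hv', hd, one_smul, neg_smul, ← sub_eq_add_neg]
  have w2 : w 2 = L • proj x (wv c j) := by
    have h2 : w 2 = proj x (L • wv c j) := hw 2
    rw [h2, proj_smul]
  have w3 : w 3 = L • proj x (wv c k) := by
    have h2 : w 3 = proj x (L • wv c k) := hw 3
    rw [h2, proj_smul]
  have w4 : w 4 = -(L • proj x (wv c j)) - L • proj x (wv c k) := by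
    have h2 : w 4 = proj x (-(L • wv c j) - L • wv c k) := hw 4
    have h3 : -(L • wv c j) - L • wv c k = (-L) • wv c j + (-L) • wv c k := by
      rw [neg_smul, neg_smul, sub_eq_add_neg]
    rw [h2, h3, proj_add, proj_smul, proj_smul, neg_smul, neg_smul, ← sub_eq_add_neg]
  rw [rep_vec w0 w1 w2 w3 w4] at hz
  have hMx := hM x hx
  have hMM : |h x| ≤ |M| := hMx.trans (le_abs_self M)
  have key := kill_gadget (proj x (wv c i)) (proj x (wv c j)) (proj x (wv c k))
    (rep_indep c hx.1 (rep_om_ne hδ hx) hij hik hjk) (h x) 0 0 (-1) 0 L hL0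
    (by rw [hL]; have := abs_nonneg M; linarith)
    (by
      have h1 : (0 : ℝ) - h x * -1 = h x := by ring
      rw [h1, hL]
      linarith)
    (by
      have h1 : (0 : ℝ) - h x * 0 = 0 := by ring
      rw [h1, abs_zero]
      positivity) (h x • proj x (wv c i)) (proj x (wv c i) - proj x (wv c j)) z
    (by rw [zero_smul, zero_smul, add_zero, add_zero])
    (by rw [neg_one_smul, zero_smul, add_zero, ← sub_eq_add_neg]) hz
  rw [key]
  have h1 : (0 : ℝ) - h x * -1 = h x := by ring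
  have h2 : (0 : ℝ) - h x * 0 = 0 := by ring
  rw [h1, h2, zero_smul, add_zero]

private theorem rep_bdd_coord (c δ : ℝ) (hδ : 0 < δ) (k : Fin 3) {x : Fin 4 → ℝ} (hx : x ∈ KK c δ) :
    |x k.succ / om c x| ≤ 1 / δ := by
  have h1 : |x k.succ| ≤ 1 := by
    have h2 : ∑ i, x i ^ 2 = 1 := hx.1
    have h3 : x k.succ ^ 2 ≤ 1 := by
      rw [← h2]
      exact Finset.single_le_sum (f := fun i => x i ^ 2) (fun i _ => sq_nonneg _) (Finset.mem_univ _)
    exact abs_le_one_iff_mul_self_le_one.2 (by nlinarith)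
  rw [abs_div]
  exact div_le_div₀ zero_le_one h1 hδ hx.2

theorem rep_coord (c δ : ℝ) (hδ : 0 < δ) (k : Fin 3) : Rep c δ (fun x => x k.succ / om c x) := by
  refine rep_axis hδ ⟨1 / δ, fun x hx => rep_bdd_coord c δ hδ k hx⟩ k ?_
  obtain ⟨i, j, hki, hkj, hij⟩ := rep_third k
  obtain ⟨L, hL⟩ : ∃ L : ℝ, L = 4 * (1 / δ) + 1 := ⟨_, rfl⟩
  have hδ' : 0 < 1 / δ := by positivity
  have hL0 : 0 < L := by rw [hL]; positivity
  refine ⟨Tm.lin 1 (-1) (Tm.const (-e0)) (Tm.rad ![Tm.lin 1 L (Tm.const (-e0)) (Tm.const (wv c k)),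
    Tm.lin 1 (-L) (Tm.const (-e0)) (Tm.const (wv c k)), Tm.const (L • wv c i), Tm.const (L • wv c j),
    Tm.const (-(L • wv c i) - L • wv c j)]), ?_⟩
  rintro x hx z ⟨u, hu, v, ⟨w, hw, hz⟩, rfl⟩
  have hu' : u = proj x (-e0) := hu
  have w0 : w 0 = proj x (-e0) + L • proj x (wv c k) := by
    obtain ⟨u, hu, v, hv, h2⟩ := hw 0
    have hu' : u = proj x (-e0) := hu
    have hv' : v = proj x (wv c k) := hv
    rw [h2, hu', hv', one_smul]
  have w1 : w 1 = proj x (-e0) - L • proj x (wv c k) := by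
    obtain ⟨u, hu, v, hv, h2⟩ := hw 1
    have hu' : u = proj x (-e0) := hu
    have hv' : v = proj x (wv c k) := hv
    rw [h2, hu', hv', one_smul, neg_smul, ← sub_eq_add_neg]
  have w2 : w 2 = L • proj x (wv c i) := by
    have h2 : w 2 = proj x (L • wv c i) := hw 2
    rw [h2, proj_smul]
  have w3 : w 3 = L • proj x (wv c j) := by
    have h2 : w 3 = proj x (L • wv c j) := hw 3
    rw [h2, proj_smul]
  have w4 : w 4 = -(L • proj x (wv c i)) - L • proj x (wv c j) := by
    have h2 : w 4 = proj x (-(L • wv c i) - L • wv c j) := hw 4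
    have h3 : -(L • wv c i) - L • wv c j = (-L) • wv c i + (-L) • wv c j := by
      rw [neg_smul, neg_smul, sub_eq_add_neg]
    rw [h2, h3, proj_add, proj_smul, proj_smul, neg_smul, neg_smul, ← sub_eq_add_neg]
  rw [rep_vec w0 w1 w2 w3 w4] at hz
  have hrel : proj x (-e0) = (x k.succ / om c x) • proj x (wv c k) +
      (x i.succ / om c x) • proj x (wv c i) + (x j.succ / om c x) • proj x (wv c j) := by
    rw [proj_rel c hx.1 (rep_om_ne hδ hx)]
    fin_cases k <;> fin_cases i <;> fin_cases j <;>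
      first
        | exact absurd rfl hki
        | exact absurd rfl hkj
        | exact absurd rfl hij
        | rfl
        | (simp only [Fin.zero_eta, Fin.mk_one, Fin.reduceFinMk, Fin.succ_zero_eq_one, Fin.succ_one_eq_two,
            Fin.reduceSucc]
           abel)
  have bk := rep_bdd_coord c δ hδ k hx
  have bi := rep_bdd_coord c δ hδ i hx
  have bj := rep_bdd_coord c δ hδ j hx
  have key := kill_gadget (proj x (wv c k)) (proj x (wv c i)) (proj x (wv c j))
    (rep_indep c hx.1 (rep_om_ne hδ hx) hki hkj hij) (x k.succ / om c x) (x i.succ / om c x)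
    (x j.succ / om c x) 0 0 L hL0
    (by rw [hL]; linarith)
    (by rw [mul_zero, sub_zero, hL]; linarith)
    (by rw [mul_zero, sub_zero, hL]; linarith)
    (proj x (-e0)) (proj x (wv c k)) v hrel
    (by rw [zero_smul, zero_smul, add_zero, add_zero]) hz
  rw [mul_zero, sub_zero, sub_zero] at key
  rw [hu', key, hrel, one_smul, neg_one_smul]
  abel

theorem rep_relu {c δ : ℝ} (hδ : 0 < δ) {h : (Fin 4 → ℝ) → ℝ} (hb : Bdd c δ h) (hh : Rep c δ h) :
    Rep c δ (fun x => max (h x) 0) := by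
  intro i
  obtain ⟨t, ht⟩ := hh i
  obtain ⟨M, hM⟩ := hb
  obtain ⟨j, k, hij, hik, hjk⟩ := rep_third i
  obtain ⟨H, hH⟩ : ∃ H : ℝ, H = |M| + 1 := ⟨_, rfl⟩
  have hH0 : 0 < H := by rw [hH]; positivity
  refine ⟨Tm.rad ![Tm.const 0, t, Tm.const (wv c j), Tm.const (wv c k),
    Tm.const ((3 * H) • wv c i - wv c j - wv c k)], ?_⟩
  rintro x hx z ⟨w, hw, hz⟩
  have w0 : w 0 = 0 := by
    have h2 : w 0 = proj x 0 := hw 0
    have h3 : (0 : Fin 4 → ℝ) = (0 : ℝ) • (0 : Fin 4 → ℝ) := by rw [zero_smul]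
    rw [h2, h3, proj_smul, zero_smul, zero_smul]
  have w1 : w 1 = h x • proj x (wv c i) := ht x hx _ (hw 1)
  have w2 : w 2 = proj x (wv c j) := hw 2
  have w3 : w 3 = proj x (wv c k) := hw 3
  have w4 : w 4 = (3 * H) • proj x (wv c i) - proj x (wv c j) - proj x (wv c k) := by
    have h2 : w 4 = proj x ((3 * H) • wv c i - wv c j - wv c k) := hw 4
    have h3 : (3 * H) • wv c i - wv c j - wv c k =
        ((3 * H) • wv c i + (-1 : ℝ) • wv c j) + (-1 : ℝ) • wv c k := by
      rw [neg_one_smul, neg_one_smul, sub_eq_add_neg, sub_eq_add_neg]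
    rw [h2, h3, proj_add, proj_add, proj_smul, proj_smul, proj_smul, neg_one_smul, neg_one_smul,
      ← sub_eq_add_neg, ← sub_eq_add_neg]
  rw [rep_vec w0 w1 w2 w3 w4] at hz
  have hMx := (le_abs_self (h x)).trans ((hM x hx).trans (le_abs_self M))
  exact relu_gadget _ _ _ (rep_indep c hx.1 (rep_om_ne hδ hx) hij hik hjk) (h x) H hH0
    (by rw [hH]; linarith) z hz

private theorem rep_bdd_sub {c δ : ℝ} {f g : (Fin 4 → ℝ) → ℝ} (hbf : Bdd c δ f) (hbg : Bdd c δ g) :
    Bdd c δ (fun x => 1 * f x + (-1) * g x) := by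
  obtain ⟨M, hM⟩ := hbf
  obtain ⟨N, hN⟩ := hbg
  refine ⟨M + N, fun x hx => ?_⟩
  have h1 : 1 * f x + (-1) * g x = f x - g x := by ring
  show |1 * f x + (-1) * g x| ≤ M + N
  rw [h1]
  exact (abs_sub _ _).trans (add_le_add (hM x hx) (hN x hx))

theorem rep_sup {c δ : ℝ} (hδ : 0 < δ) {f g : (Fin 4 → ℝ) → ℝ} (hf : Rep c δ f) (hg : Rep c δ g)
    (hbf : Bdd c δ f) (hbg : Bdd c δ g) : Rep c δ (fun x => max (f x) (g x)) := by
  have h1 := rep_relu hδ (rep_bdd_sub hbf hbg) (rep_lin 1 (-1) hf hg)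
  have h2 := rep_lin 1 1 hg h1
  have h3 : (fun x => max (f x) (g x)) =
      fun x => 1 * g x + 1 * max (1 * f x + (-1) * g x) 0 := by
    funext x
    rcases le_total (f x) (g x) with h | h
    · rw [max_eq_right h, max_eq_right (by linarith)]
      ring
    · rw [max_eq_left h, max_eq_left (by linarith)]
      ring
  rw [h3]
  exact h2

theorem rep_inf {c δ : ℝ} (hδ : 0 < δ) {f g : (Fin 4 → ℝ) → ℝ} (hf : Rep c δ f) (hg : Rep c δ g)
    (hbf : Bdd c δ f) (hbg : Bdd c δ g) : Rep c δ (fun x => min (f x) (g x)) := by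
  have h1 := rep_relu hδ (rep_bdd_sub hbf hbg) (rep_lin 1 (-1) hf hg)
  have h2 := rep_lin 1 (-1) hf h1
  have h3 : (fun x => min (f x) (g x)) =
      fun x => 1 * f x + (-1) * max (1 * f x + (-1) * g x) 0 := by
    funext x
    rcases le_total (f x) (g x) with h | h
    · rw [min_eq_left h, max_eq_right (by linarith)]
      ring
    · rw [min_eq_right h, max_eq_left (by linarith)]
      ring
  rw [h3]
  exact h2

end TVD
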